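import Pool.Agent.Lib_helper11.SD.Trace
import Pool.Agent.Lib_helper11.TD.Act

/-!
# The action of the Galois group on the zeros in the projective line (MP_97f789_ag)
-/

set_option autoImplicit false

namespace Pool.Agent.SD

open NumberField Polynomial Equiv Pool.Agent.TT Pool.Agent.TD Topology

variable {K : Type} [Field K] [Algebra K Qbar]

theorem pz_map {m : ℕ} {P : (𝓞 K)[X]} {z : Option Qbar} (hz : z ∈ pz m P)
    (σ : Qbar ≃ₐ[K] Qbar) : z.map σ ∈ pz m P := by
  cases z with
  | none => exact hz
  | some β => exact rts_map (P := P) hz σ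

/-- The action on the zeros in the projective line. -/
noncomputable def pact (m : ℕ) (P : (𝓞 K)[X]) : (Qbar ≃ₐ[K] Qbar) →* Perm (pz m P) where
  toFun σ :=
    { toFun := fun z => ⟨(z : Option Qbar).map σ, pz_map z.2 σ⟩
      invFun := fun z => ⟨(z : Option Qbar).map (σ⁻¹ : Qbar ≃ₐ[K] Qbar), pz_map z.2 σ⁻¹⟩
      left_inv := by
        rintro ⟨z, hz⟩
        apply Subtype.ext
        cases z with
        | none => rfl
        | some β =>
          change some ((σ⁻¹ * σ) β) = some β
          rw [inv_mul_cancel, AlgEquiv.one_apply]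
      right_inv := by
        rintro ⟨z, hz⟩
        apply Subtype.ext
        cases z with
        | none => rfl
        | some β =>
          change some ((σ * σ⁻¹) β) = some β
          rw [mul_inv_cancel, AlgEquiv.one_apply] }
  map_one' := by
    apply Equiv.ext
    rintro ⟨z, hz⟩
    apply Subtype.ext
    cases z <;> rfl
  map_mul' := by
    intro σ τ
    apply Equiv.ext
    rintro ⟨z, hz⟩
    apply Subtype.ext
    cases z <;> rfl

theorem pact_apply (m : ℕ) (P : (𝓞 K)[X]) (σ : Qbar ≃ₐ[K] Qbar) (z : pz m P) :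
    ((pact m P σ z : pz m P) : Option Qbar) = (z : Option Qbar).map σ := rfl

theorem pact_fix (m : ℕ) (P : (𝓞 K)[X]) (σ : Qbar ≃ₐ[K] Qbar) :
    Nat.card {z : pz m P // pact m P σ z = z} =
      Nat.card {z : pz m P // (z : Option Qbar).map σ = z} := by
  apply Nat.card_congr
  refine Equiv.subtypeEquivRight fun z => ?_
  rw [← Subtype.val_inj, pact_apply]

theorem pact_one {m : ℕ} {P : (𝓞 K)[X]} {σ : Qbar ≃ₐ[K] Qbar}
    (h : ∀ z ∈ pz m P, z.map σ = z) : pact m P σ = 1 := by
  apply Equiv.ext
  intro z
  apply Subtype.ext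
  rw [pact_apply, h _ z.2]
  rfl

theorem pact_open [NumberField K] (m : ℕ) {P : (𝓞 K)[X]} (hP : P ≠ 0) :
    IsOpen ((pact m P).ker : Set (Qbar ≃ₐ[K] Qbar)) := by
  apply Subgroup.isOpen_of_mem_nhds (g := 1)
  refine Filter.mem_of_superset (td3_nhds 1 (rts P) (sa_finite hP)) ?_
  intro s hs
  have h1 : pact m P s = 1 := by
    apply pact_one
    intro z hz
    cases z with
    | none => rfl
    | some β =>
      rw [Option.map_some, hs β hz]
      rfl
  exact h1

end Pool.Agent.SD
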