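import Pool.Agent.Lib_helper61.TT.Defs

/-!
# Zeros in the projective line: definitions (MP_97f789_ag)
-/

set_option autoImplicit false

namespace Pool.Agent.SD

open NumberField Polynomial Pool.Agent.TT

/-- The zeros of `P` in the projective line over `Qbar`, where `P` is regarded as a form of degree
`m` in two variables. The point at infinity is `none`; it is a zero if the coefficient of `t ^ m`
vanishes. -/
def pz {K : Type} [Field K] [Algebra K Qbar] (m : ℕ) (P : (𝓞 K)[X]) : Set (Option Qbar) :=
  {z | z.elim (P.coeff m = 0)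
    fun β => P.eval₂ ((algebraMap K Qbar).comp (algebraMap (𝓞 K) K)) β = 0}

/-- Every cyclic permutation of three points of `Z` is induced by an element of the Galois group
of `K` that fixes all other points of `Z` and all points of `Z'`. -/
def ThreeCycles (K : Type) [Field K] [Algebra K Qbar] (Z Z' : Set (Option Qbar)) : Prop :=
  ∀ a ∈ Z, ∀ b ∈ Z, ∀ c ∈ Z, a ≠ b → b ≠ c → c ≠ a → ∃ σ : Qbar ≃ₐ[K] Qbar,
    a.map σ = b ∧ b.map σ = c ∧ c.map σ = a ∧ (∀ z ∈ Z, z ≠ a → z ≠ b → z ≠ c → z.map σ = z) ∧
      ∀ z ∈ Z', z.map σ = z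

/-- The set `Z` has two elements, or it has an even number of elements, at least eight, and all
even permutations of `Z` are induced by elements of the Galois group of `K` that fix all points of
`Z'`. -/
def Large (K : Type) [Field K] [Algebra K Qbar] (Z Z' : Set (Option Qbar)) : Prop :=
  Z.ncard = 2 ∨ (8 ≤ Z.ncard ∧ Even Z.ncard ∧ ThreeCycles K Z Z')

end Pool.Agent.SD
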