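import Pool.Agent.Lib_helper47.TD.TD3
import Pool.Agent.Lib_helper11.SD.Zeros

/-!
# The traces modulo two and the zeros in the projective line (MP_97f789_ag)
-/

set_option autoImplicit false

namespace Pool.Agent.SD

open NumberField Polynomial Pool.Agent.TT Pool.Agent.TD Topology

variable {K : Type} [Field K] [NumberField K] [Algebra K Qbar]

omit [NumberField K] in
theorem sa_nonzero {x : 𝓞 K} (hx : x ≠ 0) : ∃ C : Finset ℕ, ∀ p : ℕ, p.Prime → p ∉ C →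
    ∀ 𝔓 : Ideal (𝓞 Qbar), 𝔓.IsPrime → (p : 𝓞 Qbar) ∈ 𝔓 →
      algebraMap (𝓞 K) (𝓞 Qbar) x ∉ 𝔓 := by
  have hcQ : algebraMap (𝓞 K) (𝓞 Qbar) x ≠ 0 := by
    intro h
    apply hx
    have h2 := congrArg (algebraMap (𝓞 Qbar) Qbar) h
    rw [map_zero, ← IsScalarTower.algebraMap_apply, IsScalarTower.algebraMap_apply (𝓞 K) K Qbar,
      map_eq_zero] at h2
    exact (map_eq_zero_iff _ (FaithfulSMul.algebraMap_injective (𝓞 K) K)).mp h2
  obtain ⟨m, hm, hdm⟩ := td2_nat hcQ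
  refine ⟨m.primeFactors, ?_⟩
  intro p hp hpC 𝔓 h𝔓 hp𝔓 h
  have hm𝔓 : (m : 𝓞 Qbar) ∈ 𝔓 := Ideal.mem_of_dvd _ hdm h
  have hcop : Nat.Coprime p m := by
    rw [Nat.Prime.coprime_iff_not_dvd hp]
    intro hpm
    exact hpC (Nat.mem_primeFactors.mpr ⟨hp, hpm, hm⟩)
  have hcop' : IsCoprime (p : ℤ) (m : ℤ) := Nat.isCoprime_iff_coprime.mpr hcop
  obtain ⟨a, b, hab⟩ := hcop'
  have h1 : (1 : 𝓞 Qbar) ∈ 𝔓 := by
    have h2 : (a : 𝓞 Qbar) * (p : 𝓞 Qbar) + (b : 𝓞 Qbar) * (m : 𝓞 Qbar) = 1 := by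
      exact_mod_cast congrArg (Int.cast : ℤ → 𝓞 Qbar) hab
    rw [← h2]
    exact 𝔓.add_mem (𝔓.mul_mem_left _ hp𝔓) (𝔓.mul_mem_left _ hm𝔓)
  exact h𝔓.ne_top ((Ideal.eq_top_iff_one 𝔓).mpr h1)

omit [Algebra K Qbar] in
theorem sa_norm (q : K[X]) : ∃ (b : 𝓞 K) (r : (𝓞 K)[X]), b ≠ 0 ∧
    r.map (algebraMap (𝓞 K) K) = C (algebraMap (𝓞 K) K b) * q := by
  obtain ⟨b, hb, h⟩ := IsLocalization.integerNormalization_spec (nonZeroDivisors (𝓞 K)) q
  refine ⟨b, IsLocalization.integerNormalization (nonZeroDivisors (𝓞 K)) q,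
    nonZeroDivisors.ne_zero hb, ?_⟩
  rw [h]
  ext i
  rw [coeff_smul, coeff_C_mul, Algebra.smul_def]

omit [Algebra K Qbar] in
theorem sa_rad (P : (𝓞 K)[X]) (hP : P ≠ 0) : ∃ (R Q₁ Q₂ : (𝓞 K)[X]) (c₁ c₂ : 𝓞 K) (e : ℕ),
    c₁ ≠ 0 ∧ c₂ ≠ 0 ∧ (R.map (algebraMap (𝓞 K) K)).Separable ∧ C c₁ * P = R * Q₁ ∧
      C c₂ * R ^ e = P * Q₂ := by
  classical
  have hinj : Function.Injective (algebraMap (𝓞 K) K) := FaithfulSMul.algebraMap_injective (𝓞 K) K
  have hminj := Polynomial.map_injective (algebraMap (𝓞 K) K) hinj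
  set Pk := P.map (algebraMap (𝓞 K) K) with hPk
  have hPk0 : Pk ≠ 0 := by
    rw [hPk, Ne, Polynomial.map_eq_zero_iff hinj]
    exact hP
  obtain ⟨e, q', hq'⟩ := UniqueFactorizationMonoid.exists_dvd_radical_self_pow hPk0
  obtain ⟨q, hq⟩ : UniqueFactorizationMonoid.radical Pk ∣ Pk :=
    UniqueFactorizationMonoid.radical_dvd_self
  obtain ⟨b, R, hb, hR⟩ := sa_norm (UniqueFactorizationMonoid.radical Pk)
  obtain ⟨b₁, Q₁, hb₁, hQ₁⟩ := sa_norm q
  obtain ⟨b₂, Q₂, hb₂, hQ₂⟩ := sa_norm q'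
  refine ⟨R, Q₁, C (b ^ e) * Q₂, b * b₁, b₂, e, mul_ne_zero hb hb₁, hb₂, ?_, ?_, ?_⟩
  · rw [hR, PerfectField.separable_iff_squarefree]
    have hu : IsUnit (C (algebraMap (𝓞 K) K b)) := by
      rw [Polynomial.isUnit_C, isUnit_iff_ne_zero]
      intro h
      exact hb ((map_eq_zero_iff _ hinj).mp h)
    have hass : Associated (UniqueFactorizationMonoid.radical Pk)
        (C (algebraMap (𝓞 K) K b) * UniqueFactorizationMonoid.radical Pk) :=
      (associated_unit_mul_right _ _ hu)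
    exact (hass.squarefree_iff).mp UniqueFactorizationMonoid.squarefree_radical
  · apply hminj
    rw [Polynomial.map_mul, Polynomial.map_mul, Polynomial.map_C, hR, hQ₁, ← hPk, map_mul, C_mul]
    conv_lhs => rw [hq]
    ring
  · apply hminj
    rw [Polynomial.map_mul, Polynomial.map_mul, Polynomial.map_mul, Polynomial.map_C,
      Polynomial.map_C, Polynomial.map_pow, hR, hQ₂, ← hPk, mul_pow, hq', map_pow, C_pow]
    ring

theorem sa_roots (P : (𝓞 K)[X]) (hP : P ≠ 0) :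
    ∃ C : Finset ℕ, ∀ p : ℕ, p.Prime → p ∉ C → ∀ 𝔓 : Ideal (𝓞 Qbar), 𝔓.IsPrime →
      (p : 𝓞 Qbar) ∈ 𝔓 → ∀ (F : Type) [Field F] [Fintype F] (φ : 𝓞 K →+* F),
      (∀ x : 𝓞 K, φ x = 0 ↔ algebraMap (𝓞 K) (𝓞 Qbar) x ∈ 𝔓) →
      ∀ σ : Qbar ≃ₐ[K] Qbar, (∀ x y : 𝓞 Qbar, (y : Qbar) = σ x → y - x ^ Fintype.card F ∈ 𝔓) →
        Nat.card {t : F // P.eval₂ φ t = 0} = Nat.card {β : rts P // σ β = β} := by
  classical
  obtain ⟨R, Q₁, Q₂, c₁, c₂, e, hc₁, hc₂, hsep, h1, h2⟩ := sa_rad P hP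
  obtain ⟨C₁, hC₁⟩ := sa_nonzero hc₁
  obtain ⟨C₂, hC₂⟩ := sa_nonzero hc₂
  have hinj : Function.Injective (algebraMap (𝓞 K) K) := FaithfulSMul.algebraMap_injective (𝓞 K) K
  -- the zeros of `P` and `R`
  have key : ∀ {S : Type} [Field S] (φ : 𝓞 K →+* S) (t : S), φ c₁ ≠ 0 → φ c₂ ≠ 0 →
      (P.eval₂ φ t = 0 ↔ R.eval₂ φ t = 0) := by
    intro S _ φ t h3 h4
    constructor
    · intro h
      have h5 := congrArg (Polynomial.eval₂ φ t) h2
      rw [eval₂_mul, eval₂_C, eval₂_pow, eval₂_mul, h, zero_mul] at h5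
      rcases mul_eq_zero.mp h5 with h6 | h6
      · exact absurd h6 h4
      · have he : e ≠ 0 := by
          rintro rfl
          simp at h6
        exact (pow_eq_zero_iff he).mp h6
    · intro h
      have h5 := congrArg (Polynomial.eval₂ φ t) h1
      rw [eval₂_mul, eval₂_C, eval₂_mul, h, zero_mul] at h5
      exact (mul_eq_zero.mp h5).resolve_left h3
  have hrts : rts P = rts R := by
    ext β
    have hιinj : Function.Injective ((algebraMap K Qbar).comp (algebraMap (𝓞 K) K)) :=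
      (algebraMap K Qbar).injective.comp hinj
    apply key
    · intro h
      exact hc₁ ((map_eq_zero_iff _ hιinj).mp h)
    · intro h
      exact hc₂ ((map_eq_zero_iff _ hιinj).mp h)
  by_cases hR0 : 0 < R.natDegree
  · obtain ⟨C₃, hC₃⟩ := td_roots R hsep hR0
    refine ⟨C₁ ∪ (C₂ ∪ C₃), ?_⟩
    intro p hp hpC 𝔓 h𝔓 hp𝔓 F _ _ φ hφ σ hσ
    rw [Finset.mem_union, Finset.mem_union, not_or, not_or] at hpC
    have h3 : φ c₁ ≠ 0 := fun h => hC₁ p hp hpC.1 𝔓 h𝔓 hp𝔓 ((hφ c₁).mp h)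
    have h4 : φ c₂ ≠ 0 := fun h => hC₂ p hp hpC.2.1 𝔓 h𝔓 hp𝔓 ((hφ c₂).mp h)
    rw [hrts, ← (hC₃ p hp hpC.2.2 𝔓 h𝔓 hp𝔓 F φ hφ σ hσ).2]
    exact Nat.card_congr (Equiv.subtypeEquivRight fun t => key φ t h3 h4)
  · -- `R` is a nonzero constant
    have hRc : R = C (R.coeff 0) := Polynomial.eq_C_of_natDegree_eq_zero (by omega)
    have hR00 : R.coeff 0 ≠ 0 := by
      intro h
      rw [h, C_0] at hRc
      apply hsep.ne_zero
      rw [hRc, Polynomial.map_zero]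
    obtain ⟨C₃, hC₃⟩ := sa_nonzero hR00
    refine ⟨C₁ ∪ (C₂ ∪ C₃), ?_⟩
    intro p hp hpC 𝔓 h𝔓 hp𝔓 F _ _ φ hφ σ hσ
    rw [Finset.mem_union, Finset.mem_union, not_or, not_or] at hpC
    have h3 : φ c₁ ≠ 0 := fun h => hC₁ p hp hpC.1 𝔓 h𝔓 hp𝔓 ((hφ c₁).mp h)
    have h4 : φ c₂ ≠ 0 := fun h => hC₂ p hp hpC.2.1 𝔓 h𝔓 hp𝔓 ((hφ c₂).mp h)
    have h5 : φ (R.coeff 0) ≠ 0 := fun h => hC₃ p hp hpC.2.2 𝔓 h𝔓 hp𝔓 ((hφ _).mp h)
    have h6 : IsEmpty {t : F // P.eval₂ φ t = 0} := by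
      constructor
      rintro ⟨t, ht⟩
      rw [key φ t h3 h4, hRc, eval₂_C] at ht
      exact h5 ht
    have h7 : IsEmpty {β : rts P // σ β = β} := by
      constructor
      rintro ⟨⟨β, hβ⟩, -⟩
      rw [hrts] at hβ
      have h8 : R.eval₂ ((algebraMap K Qbar).comp (algebraMap (𝓞 K) K)) β = 0 := hβ
      rw [hRc, eval₂_C] at h8
      have hιinj : Function.Injective ((algebraMap K Qbar).comp (algebraMap (𝓞 K) K)) :=
        (algebraMap K Qbar).injective.comp hinj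
      exact hR00 ((map_eq_zero_iff _ hιinj).mp h8)
    rw [Nat.card_of_isEmpty, Nat.card_of_isEmpty]

omit [NumberField K] in
/-- The finite set of zeros. -/
theorem sa_finite {P : (𝓞 K)[X]} (hP : P ≠ 0) : (rts P).Finite := by
  have hinj : Function.Injective ((algebraMap K Qbar).comp (algebraMap (𝓞 K) K)) :=
    (algebraMap K Qbar).injective.comp (FaithfulSMul.algebraMap_injective (𝓞 K) K)
  have h0 : P.map ((algebraMap K Qbar).comp (algebraMap (𝓞 K) K)) ≠ 0 := by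
    rw [Ne, Polynomial.map_eq_zero_iff hinj]
    exact hP
  refine (Polynomial.finite_setOfPred_isRoot h0).subset ?_
  intro β hβ
  change (P.map _).IsRoot β
  rw [Polynomial.IsRoot.def, Polynomial.eval_map]
  exact hβ

omit [NumberField K] in
theorem pz_none {m : ℕ} {P : (𝓞 K)[X]} : none ∈ pz m P ↔ P.coeff m = 0 := Iff.rfl

omit [NumberField K] in
theorem pz_some {m : ℕ} {P : (𝓞 K)[X]} {β : Qbar} : some β ∈ pz m P ↔ β ∈ rts P := Iff.rfl

omit [NumberField K] in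
theorem pz_eq {m : ℕ} {P : (𝓞 K)[X]} :
    pz m P = (some '' rts P) ∪ {z | z = none ∧ P.coeff m = 0} := by
  ext z
  cases z with
  | none => simp [pz_none]
  | some β => simp [pz_some]

omit [NumberField K] in
theorem pz_finite {m : ℕ} {P : (𝓞 K)[X]} (hP : P ≠ 0) : (pz m P).Finite := by
  rw [pz_eq]
  refine (Set.Finite.image _ (sa_finite hP)).union ((Set.finite_singleton none).subset ?_)
  rintro z ⟨h, -⟩
  exact h

open Classical in
omit [NumberField K] in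
theorem pz_card {m : ℕ} {P : (𝓞 K)[X]} (hP : P ≠ 0) (σ : Qbar ≃ₐ[K] Qbar) :
    Nat.card {z : pz m P // (z : Option Qbar).map σ = z} =
      Nat.card {β : rts P // σ β = β} + if P.coeff m = 0 then 1 else 0 := by
  have hfin := sa_finite hP
  have hf : Finite {β : rts P // σ β = β} := by
    have : Finite (rts P) := hfin
    infer_instance
  let f : {z : pz m P // (z : Option Qbar).map σ = z} →
      {β : rts P // σ β = β} ⊕ {u : Unit // P.coeff m = 0} := fun z =>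
    match z with
    | ⟨⟨none, h⟩, _⟩ => Sum.inr ⟨(), h⟩
    | ⟨⟨some β, h⟩, h'⟩ => Sum.inl ⟨⟨β, h⟩, by simpa using h'⟩
  have hf2 : Function.Bijective f := by
    constructor
    · rintro ⟨⟨z, h⟩, h'⟩ ⟨⟨w, g⟩, g'⟩ hzw
      cases z with
      | none =>
        cases w with
        | none => rfl
        | some γ => simp [f] at hzw
      | some β =>
        cases w with
        | none => simp [f] at hzw
        | some γ =>
          have h1 : (⟨⟨β, h⟩, by simpa using h'⟩ : {β : rts P // σ β = β}) =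
              ⟨⟨γ, g⟩, by simpa using g'⟩ := Sum.inl.inj hzw
          have h2 : β = γ := congrArg (fun z : {β : rts P // σ β = β} => (z : Qbar)) h1
          subst h2
          rfl
    · rintro (⟨⟨β, h⟩, h'⟩ | ⟨u, h⟩)
      · exact ⟨⟨⟨some β, h⟩, by simpa using h'⟩, rfl⟩
      · exact ⟨⟨⟨none, h⟩, rfl⟩, rfl⟩
  rw [Nat.card_congr (Equiv.ofBijective f hf2), Nat.card_sum]
  congr 1
  split_ifs with h
  · rw [Nat.card_eq_fintype_card, Fintype.card_subtype]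
    simp [h]
  · have : IsEmpty {u : Unit // P.coeff m = 0} := ⟨fun u => h u.2⟩
    exact Nat.card_of_isEmpty

end Pool.Agent.SD
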