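import Pool.Agent.Lib_helper11.SD.Logs

/-!
# Elements without the eigenvalue one (MP_97f789_ag, strong form of EllipticSurfaces)
-/

set_option autoImplicit false

namespace Pool.Agent.SD

open Module Filter Topology Pool.Agent.TBL

/-- The rank of a skew form is even. -/
theorem lo_alt {k E : Type*} [Field k] [CharZero k] [AddCommGroup E] [Module k E]
    [FiniteDimensional k E] (β : LinearMap.BilinForm k E) (hβ : ∀ x y, β x y = -β y x) :
    ∃ m, finrank k E = finrank k (LinearMap.ker β) + 2 * m := by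
  classical
  obtain ⟨C, hC⟩ := Submodule.exists_isCompl (LinearMap.ker β)
  have h1 : finrank k E = finrank k (LinearMap.ker β) + finrank k C :=
    (Submodule.finrank_add_eq_of_isCompl hC).symm
  let c := Module.finBasis k C
  set M : Matrix (Fin (finrank k C)) (Fin (finrank k C)) k :=
    Matrix.of fun i j => β (c i) (c j) with hM
  have hdet : M.det ≠ 0 := by
    intro h
    obtain ⟨v, hv0, hv⟩ := Matrix.exists_mulVec_eq_zero_iff.mpr h
    apply hv0
    set w : C := ∑ j, v j • c j with hw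
    have h2 : ∀ i, β (c i) w = 0 := by
      intro i
      have h3 := congrFun hv i
      rw [Matrix.mulVec, dotProduct, Pi.zero_apply] at h3
      rw [hw, Submodule.coe_sum, map_sum, ← h3]
      refine Finset.sum_congr rfl fun j _ => ?_
      rw [Submodule.coe_smul, map_smul, smul_eq_mul, mul_comm]
      rfl
    have h4 : ∀ u ∈ C, β u w = 0 := by
      intro u hu
      have h5 : u = ∑ i, c.repr ⟨u, hu⟩ i • (c i : E) := by
        have h6 := congrArg (Subtype.val) (c.sum_repr ⟨u, hu⟩)
        rw [Submodule.coe_sum] at h6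
        exact h6.symm
      rw [h5, map_sum, LinearMap.sum_apply]
      refine Finset.sum_eq_zero fun i _ => ?_
      rw [map_smul, LinearMap.smul_apply, h2, smul_zero]
    have h7 : (w : E) ∈ LinearMap.ker β := by
      rw [LinearMap.mem_ker]
      apply LinearMap.ext
      intro z
      obtain ⟨a, ha, u, hu, rfl⟩ := Submodule.mem_sup.mp
        ((codisjoint_iff.mp hC.codisjoint) ▸ (Submodule.mem_top : z ∈ ⊤))
      rw [map_add, hβ, hβ (w : E) u, h4 u hu, LinearMap.mem_ker.mp ha]
      simp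
    have h8 : (w : E) = 0 := (Submodule.disjoint_def.mp hC.disjoint) _ h7 w.2
    have h9 : w = 0 := Subtype.ext h8
    have h10 := Fintype.linearIndependent_iff.mp c.linearIndependent v (by rw [← hw, h9])
    funext i
    exact h10 i
  have ht : M.transpose = -M := by
    ext i j
    rw [Matrix.transpose_apply, Matrix.neg_apply, hM, Matrix.of_apply, Matrix.of_apply, hβ]
  have h2 : M.det = (-1) ^ (finrank k C) * M.det := by
    conv_lhs => rw [← Matrix.det_transpose, ht, Matrix.det_neg, Fintype.card_fin]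
  have h3 : ((-1 : k)) ^ (finrank k C) = 1 := by
    have h4 : ((-1 : k) ^ (finrank k C) - 1) * M.det = 0 := by
      rw [sub_mul, ← h2, one_mul, sub_self]
    exact sub_eq_zero.mp ((mul_eq_zero.mp h4).resolve_right hdet)
  have h4 : Even (finrank k C) := by
    by_contra h5
    rw [Nat.not_even_iff_odd] at h5
    rw [h5.neg_one_pow] at h3
    have h6 : (2 : k) = 0 := by linear_combination -h3
    exact two_ne_zero h6
  obtain ⟨m, hm⟩ := h4
  exact ⟨m, by omega⟩

section

variable {k : Type*} [NontriviallyNormedField k] [IsUltrametricDist k] [CompleteSpace k]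
  {n : Type*} [Fintype n] [DecidableEq n]

attribute [local instance] matRing matAlg matUltra matComplete

omit [DecidableEq n] in
/-- First-order perturbation of the rank. -/
theorem lo_rank (M X : Matrix n n k) (Y : ℕ → Matrix n n k) (c : ℕ → k)
    (hY : Tendsto Y atTop (𝓝 0)) (hX : Tendsto (fun j => c j • Y j) atTop (𝓝 X))
    (hr : ∀ j, (M + Y j).rank ≤ M.rank) (v : n → k) (hv : M.mulVec v = 0) :
    ∃ w, X.mulVec v = M.mulVec w := by
  classical
  by_contra hne
  set R := LinearMap.range M.mulVecLin with hR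
  have hXv : X.mulVec v ∉ R := by
    rintro ⟨w, hw⟩
    exact hne ⟨w, hw.symm⟩
  let e := Module.finBasis k R
  have h1 : ∀ i, ∃ w, M.mulVec w = (e i : n → k) := fun i => (e i).2
  choose w hw using h1
  have h2 : LinearIndependent k (fun i => M.mulVec (w i)) := by
    have h3 : (fun i => M.mulVec (w i)) = fun i => ((R.subtype) (e i)) := by
      funext i
      exact hw i
    rw [h3]
    exact e.linearIndependent.map' R.subtype (Submodule.ker_subtype R)
  have h3 : LinearIndependent k (Fin.cons (X.mulVec v) (fun i => M.mulVec (w i)) :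
      Fin (finrank k R + 1) → n → k) := by
    rw [linearIndependent_finCons]
    refine ⟨h2, fun h => hXv (Submodule.span_le.mpr ?_ h)⟩
    rintro _ ⟨i, rfl⟩
    exact ⟨w i, rfl⟩
  have h4 : Tendsto (fun j => (Fin.cons ((c j • Y j).mulVec v) (fun i => (M + Y j).mulVec (w i)) :
      Fin (finrank k R + 1) → n → k)) atTop
      (𝓝 (Fin.cons (X.mulVec v) (fun i => M.mulVec (w i)))) := by
    rw [tendsto_pi_nhds]
    intro i
    refine Fin.cases ?_ (fun i => ?_) i
    · simp only [Fin.cons_zero]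
      exact ((lo_lin ((Matrix.mulVecBilin k k).flip v)).tendsto _).comp hX
    · simp only [Fin.cons_succ]
      have h5 : Tendsto (fun j => M + Y j) atTop (𝓝 (M + 0)) := hY.const_add M
      rw [add_zero] at h5
      exact ((lo_lin ((Matrix.mulVecBilin k k).flip (w i))).tendsto _).comp h5
  obtain ⟨j, hj⟩ := (h4.eventually h3.eventually).exists
  have h5 : Submodule.span k (Set.range (Fin.cons ((c j • Y j).mulVec v)
      (fun i => (M + Y j).mulVec (w i)) : Fin (finrank k R + 1) → n → k)) ≤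
      LinearMap.range (M + Y j).mulVecLin := by
    rw [Submodule.span_le]
    rintro _ ⟨i, rfl⟩
    refine Fin.cases ?_ (fun i => ?_) i
    · rw [Fin.cons_zero]
      refine ⟨c j • v, ?_⟩
      rw [Matrix.mulVecLin_apply, Matrix.mulVec_smul, Matrix.add_mulVec, hv, zero_add,
        Matrix.smul_mulVec]
    · rw [Fin.cons_succ]
      exact ⟨w i, rfl⟩
  have h6 := Submodule.finrank_mono h5
  rw [finrank_span_eq_card hj, Fintype.card_fin] at h6
  have h7 := hr j
  rw [Matrix.rank, Matrix.rank, ← hR] at h7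
  omega

variable {p : ℕ} (hp0 : (p : k) ≠ 0) (hp : ‖(p : k)‖ < 1) {G : Type*} [Group G]
  (A : G →* Matrix n n k) (H : Subgroup G)

include hp0 hp in
theorem lo_key (hN : ∀ h ∈ H, ‖A h - 1‖ ≤ ‖(p : k)‖ ^ 2)
    (b : LinearMap.BilinForm k (n → k)) (hb : ∀ g ∈ H, ∀ x y,
      b ((A g).mulVec x) ((A g).mulVec y) = b x y) :
    ∃ y ∈ H, ∀ f f' : n → k, (A y).mulVec f = f → (A y).mulVec f' = f' →
      ∀ X ∈ sp A H p, b f' (X.mulVec f) = 0 := by
  set S : Set ℕ := {r | ∃ y ∈ H, (A y - 1).rank = r} with hS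
  have hS1 : S.Nonempty := ⟨_, 1, H.one_mem, rfl⟩
  have hS2 : BddAbove S := by
    refine ⟨Fintype.card n, ?_⟩
    rintro r ⟨y, -, rfl⟩
    exact Matrix.rank_le_card_width _
  obtain ⟨y, hy, hyr⟩ := Nat.sSup_mem hS1 hS2
  refine ⟨y, hy, ?_⟩
  intro f f' hf hf' X hX
  induction hX using Submodule.span_induction with
  | mem X hX =>
    obtain ⟨h, hh, rfl⟩ := hX
    have h1 : Tendsto (fun j => (A h ^ p ^ j - 1) * A y) atTop (𝓝 0) := by
      have := ((tendsto_pow_pow (k := k) hp (hN h hh)).sub_const (1 : Matrix n n k)).mul_const (A y)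
      rwa [sub_self, zero_mul] at this
    have h2 : Tendsto (fun j => ((p : k) ^ j)⁻¹ • ((A h ^ p ^ j - 1) * A y)) atTop
        (𝓝 (lg k p (A h) * A y)) := by
      refine ((tendsto_dq (k := k) hp0 hp (hN h hh)).mul_const (A y)).congr fun j => ?_
      rw [dq, smul_mul_assoc]
    obtain ⟨w, hw⟩ := lo_rank (A y - 1) (lg k p (A h) * A y) _ _ h1 h2 (by
      intro j
      have h3 : A y - 1 + (A h ^ p ^ j - 1) * A y = A (h ^ p ^ j * y) - 1 := by
        rw [map_mul, map_pow, sub_mul, one_mul]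
        abel
      rw [h3, hyr]
      exact le_csSup hS2 ⟨_, H.mul_mem (H.pow_mem hh _) hy, rfl⟩) f
      (by rw [Matrix.sub_mulVec, hf, Matrix.one_mulVec, sub_self])
    rw [← Matrix.mulVec_mulVec, hf] at hw
    rw [hw, Matrix.sub_mulVec, Matrix.one_mulVec, map_sub]
    conv_lhs => rw [← hf']
    rw [hb y hy, hf', sub_self]
  | zero => simp
  | add X Y _ _ hX hY => rw [Matrix.add_mulVec, map_add, hX, hY, add_zero]
  | smul c X _ hX => rw [Matrix.smul_mulVec, map_smul, hX, smul_zero]

include hp0 hp in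
/-- Elements without the eigenvalue one near the identity. -/
theorem lo_end [CharZero k] (hN : ∀ h ∈ H, ‖A h - 1‖ ≤ ‖(p : k)‖ ^ 2)
    (b : LinearMap.BilinForm k (n → k)) (hs : ∀ x y, b x y = b y x)
    (hn : ∀ x, (∀ y, b x y = 0) → x = 0)
    (hb : ∀ g ∈ H, ∀ x y, b ((A g).mulVec x) ((A g).mulVec y) = b x y) {ι : Type*} [Fintype ι]
    [DecidableEq ι] (W : ι → Submodule k (n → k)) (hWt : ⨆ i, W i = ⊤)
    (hWo : ∀ i j, i ≠ j → ∀ x ∈ W i, ∀ y ∈ W j, b x y = 0)
    (hWA : ∀ i, ∀ g ∈ H, ∀ v ∈ W i, (A g).mulVec v ∈ W i) (hWe : ∀ i, Even (finrank k (W i)))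
    (hL : ∀ i, ∀ x ∈ W i, ∀ y ∈ W i, ∃ X ∈ sp A H p, ∀ v ∈ W i, X.mulVec v = wedge b x y v) :
    ∃ h ∈ H, (1 - A h).det ≠ 0 := by
  obtain ⟨y, hy, hkey⟩ := lo_key hp0 hp A H hN b hb
  refine ⟨y, hy, ?_⟩
  intro hdet
  obtain ⟨v, hv0, hv⟩ := Matrix.exists_mulVec_eq_zero_iff.mpr hdet
  rw [Matrix.sub_mulVec, Matrix.one_mulVec, sub_eq_zero] at hv
  -- the radical of `b` on `W i` is zero
  have hnd : ∀ i, ∀ x ∈ W i, (∀ z ∈ W i, b x z = 0) → x = 0 := by
    intro i x hx h
    apply hn
    intro z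
    have hz : z ∈ ⨆ j, W j := by
      rw [hWt]
      exact Submodule.mem_top
    induction hz using Submodule.iSup_induction' with
    | mem j z hz =>
      by_cases hij : i = j
      · subst hij
        exact h z hz
      · exact hWo i j hij x hx z hz
    | zero => exact map_zero _
    | add z z' _ _ h1 h2 => rw [map_add, h1, h2, add_zero]
  -- a fixed vector in some `W i`
  obtain ⟨i, f, hfi, hf0, hf⟩ : ∃ i, ∃ f ∈ W i, f ≠ 0 ∧ (A y).mulVec f = f := by
    by_contra hcon
    push Not at hcon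
    apply hv0
    have h1 : v ∈ ⨆ j, W j := by
      rw [hWt]
      exact Submodule.mem_top
    obtain ⟨u, hu, huv⟩ := (Submodule.mem_iSup_iff_exists_finsupp _ _).mp h1
    rw [Finsupp.sum_fintype _ _ (fun _ => rfl)] at huv
    have h2 : ∑ i, ((A y).mulVec (u i) - u i) = 0 := by
      rw [Finset.sum_sub_distrib, ← Matrix.mulVec_sum, huv, ← hv, sub_self]
    have h3 : ∀ i, (A y).mulVec (u i) = u i := by
      intro i
      rw [← sub_eq_zero]
      have h4 : ∀ j, (A y).mulVec (u j) - u j ∈ W j := fun j =>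
        (W j).sub_mem (hWA j y hy _ (hu j)) (hu j)
      apply hnd i _ (h4 i)
      intro z hz
      have h5 : b (∑ i, ((A y).mulVec (u i) - u i)) z = 0 := by
        rw [h2, map_zero, LinearMap.zero_apply]
      rw [map_sum, LinearMap.sum_apply, Finset.sum_eq_single i] at h5
      · exact h5
      · intro j _ hji
        exact hWo j i hji _ (h4 j) z hz
      · intro h6
        exact absurd (Finset.mem_univ i) h6
    rw [← huv]
    refine Finset.sum_eq_zero fun i _ => ?_
    by_contra h4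
    exact hcon i (u i) (hu i) h4 (h3 i)
  -- the fixed vectors in `W i` are the multiples of `f`
  obtain ⟨z, hz, hzf⟩ : ∃ z ∈ W i, b z f ≠ 0 := by
    by_contra hcon
    push Not at hcon
    exact hf0 (hnd i f hfi fun z hz => by rw [hs]; exact hcon z hz)
  have hline : ∀ f' ∈ W i, (A y).mulVec f' = f' → f' = (b z f' / b z f) • f := by
    intro f' hf'i hf'
    rw [← sub_eq_zero]
    apply hnd i _ ((W i).sub_mem hf'i ((W i).smul_mem _ hfi))
    intro x hx
    obtain ⟨X, hX, hXw⟩ := hL i x hx z hz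
    have h1 := hkey f f' hf hf' X hX
    rw [hXw f hfi] at h1
    have h2 : wedge b x z f = b z f • x - b x f • z := rfl
    rw [h2, map_sub, map_smul, map_smul, smul_eq_mul, smul_eq_mul, hs f' z] at h1
    rw [map_sub, LinearMap.sub_apply, map_smul, LinearMap.smul_apply, smul_eq_mul, hs f x]
    field_simp
    linear_combination h1
  -- the skew form
  set X := lg k p (A y) with hX
  have hXs : X ∈ sp A H p := lg_mem_sp A H p hy
  have hXW : ∀ w ∈ W i, X.mulVec w ∈ W i := fun w hw =>
    lo_pres hp0 hp A H hN (W i) (hWA i) hXs w hw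
  let β : LinearMap.BilinForm k (W i) :=
    b.compl₁₂ (X.mulVecLin.comp (W i).subtype) (W i).subtype
  have hβ : ∀ u w : W i, β u w = b (X.mulVec u) w := fun _ _ => rfl
  obtain ⟨m, hm⟩ := lo_alt β (by
    intro u w
    rw [hβ, hβ, lo_skew hp0 hp A H hN b hb hXs, hs])
  have hker : ∀ u : W i, β u = 0 ↔ (A y).mulVec (u : n → k) = u := by
    intro u
    rw [← lo_fix hp0 hp (hN y hy), ← hX]
    constructor
    · intro h
      apply hnd i _ (hXW u u.2)
      intro w hw
      have h1 := congrArg (fun φ => φ ⟨w, hw⟩) h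
      exact h1
    · intro h
      apply LinearMap.ext
      intro w
      rw [hβ, h, map_zero]
      rfl
  have hle : finrank k (LinearMap.ker β) ≤ 1 := by
    refine finrank_le_one ⟨⟨f, hfi⟩, (hker _).mpr hf⟩ ?_
    rintro ⟨⟨f', hf'⟩, h'⟩
    refine ⟨b z f' / b z f, ?_⟩
    apply Subtype.ext
    apply Subtype.ext
    exact (hline f' hf' ((hker _).mp h')).symm
  have hpos : 0 < finrank k (LinearMap.ker β) := by
    refine (Module.finrank_pos_iff_exists_ne_zero (R := k) (M := LinearMap.ker β)).mpr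
      ⟨⟨⟨f, hfi⟩, (hker _).mpr hf⟩, ?_⟩
    intro h
    exact hf0 (congrArg (fun x => ((x : LinearMap.ker β) : W i).1) h)
  obtain ⟨r, hr⟩ := hWe i
  omega

include hp0 hp in
/-- Elements without the eigenvalue one near the identity: families of equal or orthogonal
subspaces. -/
theorem lo_end' [CharZero k] (hN : ∀ h ∈ H, ‖A h - 1‖ ≤ ‖(p : k)‖ ^ 2)
    (b : LinearMap.BilinForm k (n → k)) (hs : ∀ x y, b x y = b y x)
    (hn : ∀ x, (∀ y, b x y = 0) → x = 0)
    (hb : ∀ g ∈ H, ∀ x y, b ((A g).mulVec x) ((A g).mulVec y) = b x y) {ι : Type*} [Finite ι]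
    (W : ι → Submodule k (n → k)) (hWt : ⨆ i, W i = ⊤)
    (hWo : ∀ i j, W i = W j ∨ ∀ x ∈ W i, ∀ y ∈ W j, b x y = 0)
    (hWA : ∀ i, ∀ g ∈ H, ∀ v ∈ W i, (A g).mulVec v ∈ W i) (hWe : ∀ i, Even (finrank k (W i)))
    (hL : ∀ i, ∀ x ∈ W i, ∀ y ∈ W i, ∃ X ∈ sp A H p, ∀ v ∈ W i, X.mulVec v = wedge b x y v) :
    ∃ h ∈ H, (1 - A h).det ≠ 0 := by
  classical
  have hf : Finite (Set.range W) := Set.finite_range W
  let _ : Fintype (Set.range W) := Fintype.ofFinite _
  refine lo_end hp0 hp A H hN b hs hn hb (fun U : Set.range W => (U : Submodule k (n → k)))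
    ?_ ?_ ?_ ?_ ?_
  · rw [← hWt]
    exact iSup_range' (fun U => U) W
  · rintro ⟨_, ⟨i, rfl⟩⟩ ⟨_, ⟨j, rfl⟩⟩ hij
    exact (hWo i j).resolve_left fun h => hij (Subtype.ext h)
  · rintro ⟨_, ⟨i, rfl⟩⟩
    exact hWA i
  · rintro ⟨_, ⟨i, rfl⟩⟩
    exact hWe i
  · rintro ⟨_, ⟨i, rfl⟩⟩
    exact hL i

end

end Pool.Agent.SD
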