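import Pool.Agent.Lib_helper55.ESF.Big
import Pool.Agent.Lib_helper11.SD.LogsEnd

/-!
# Elements without the eigenvalue one in open subgroups (MP_97f789_ag, strong form of
EllipticSurfaces)
-/

set_option autoImplicit false

namespace Pool.Agent.SD

open Equiv Module Pool.Agent.TBL

attribute [local instance] matRing matAlg matUltra matComplete

/-- The inclusion of the `2`-adic integers in `ℂ_2`. -/
noncomputable def ic : ℤ_[2] →+* ℂ_[2] := (algebraMap ℚ_[2] ℂ_[2]).comp (algebraMap ℤ_[2] ℚ_[2])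

/-- The matrices over `ℂ_2`. -/
noncomputable def cm {G : Type*} [Group G] {N : ℕ} (ρ : G →* Matrix (Fin N) (Fin N) ℤ_[2]) :
    G →* Matrix (Fin N) (Fin N) ℂ_[2] :=
  (ic.mapMatrix.toMonoidHom).comp ρ

theorem cm_apply {G : Type*} [Group G] {N : ℕ} (ρ : G →* Matrix (Fin N) (Fin N) ℤ_[2]) (g : G) :
    cm ρ g = (ρ g).map (ic) := rfl

theorem norm_c2 (x : ℤ_[2]) : ‖ic x‖ = ‖x‖ := by
  have h1 : ic x = algebraMap ℚ_[2] ℂ_[2] (x : ℚ_[2]) := rfl
  rw [h1, norm_algebraMap', PadicInt.norm_def]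

/-- The elements near the identity contain an open normal subgroup. -/
theorem small {G : Type*} [Group G] [TopologicalSpace G] [IsTopologicalGroup G]
    [CompactSpace G] {N : ℕ} (ρ : G →* Matrix (Fin N) (Fin N) ℤ_[2]) (hρ : Continuous ρ)
    (H : Subgroup G) (hH : IsOpen (H : Set G)) :
    ∃ H' : Subgroup G, H'.Normal ∧ H'.FiniteIndex ∧ H' ≤ H ∧
      ∀ h ∈ H', ‖cm ρ h - 1‖ ≤ ‖((2 : ℕ) : ℂ_[2])‖ ^ 2 := by
  classical
  let φ : G →* Matrix (Fin N) (Fin N) (ZMod (2 ^ 2)) :=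
    ((PadicInt.toZModPow 2 : ℤ_[2] →+* ZMod (2 ^ 2)).mapMatrix.toMonoidHom).comp ρ
  have hφ : ∀ g, φ g = (ρ g).map (PadicInt.toZModPow 2) := fun _ => rfl
  have hmem : ∀ g, g ∈ φ.ker ↔ ∀ i j, ‖ρ g i j - (1 : Matrix (Fin N) (Fin N) ℤ_[2]) i j‖ ≤
      (2 : ℝ) ^ (-(2 : ℤ)) := by
    intro g
    rw [MonoidHom.mem_ker, hφ]
    have h1 : (1 : Matrix (Fin N) (Fin N) (ZMod (2 ^ 2))) =
        (1 : Matrix (Fin N) (Fin N) ℤ_[2]).map (PadicInt.toZModPow 2) := by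
      rw [Matrix.map_one _ (map_zero _) (map_one _)]
    rw [h1, ← Matrix.ext_iff]
    refine forall_congr' fun i => forall_congr' fun j => ?_
    rw [Matrix.map_apply, Matrix.map_apply, ← sub_eq_zero, ← map_sub, ← RingHom.mem_ker,
      PadicInt.ker_toZModPow]
    have h2 := PadicInt.norm_le_pow_iff_mem_span_pow
      (ρ g i j - (1 : Matrix (Fin N) (Fin N) ℤ_[2]) i j) 2
    rw [← h2]
    norm_num
  have hopen : IsOpen (φ.ker : Set G) := by
    have h1 : (φ.ker : Set G) = ⋂ i, ⋂ j, {g | ‖ρ g i j -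
        (1 : Matrix (Fin N) (Fin N) ℤ_[2]) i j‖ ≤ (2 : ℝ) ^ (-(2 : ℤ))} := by
      ext g
      rw [SetLike.mem_coe, hmem]
      simp
    rw [h1]
    refine isOpen_iInter_of_finite fun i => isOpen_iInter_of_finite fun j => ?_
    have h2 : Continuous fun g => ρ g i j := (continuous_apply j).comp ((continuous_apply i).comp hρ)
    have h3 : {g | ‖ρ g i j - (1 : Matrix (Fin N) (Fin N) ℤ_[2]) i j‖ ≤ (2 : ℝ) ^ (-(2 : ℤ))} =
        (fun g => ρ g i j) ⁻¹' (Metric.closedBall ((1 : Matrix (Fin N) (Fin N) ℤ_[2]) i j)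
          ((2 : ℝ) ^ (-(2 : ℤ)))) := by
      ext g
      rw [Set.mem_preimage, Metric.mem_closedBall, dist_eq_norm]
      rfl
    rw [h3]
    exact (IsUltrametricDist.isOpen_closedBall _ (by positivity)).preimage h2
  have hfin1 : H.FiniteIndex := by
    have h1 : Finite (G ⧸ H) := Subgroup.quotient_finite_of_isOpen H hH
    exact Subgroup.finiteIndex_of_finite_quotient
  have hfin2 : φ.ker.FiniteIndex := by
    have h1 : Finite (G ⧸ φ.ker) := Subgroup.quotient_finite_of_isOpen φ.ker hopen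
    exact Subgroup.finiteIndex_of_finite_quotient
  refine ⟨H.normalCore ⊓ φ.ker, inferInstance, inferInstance,
    inf_le_left.trans (Subgroup.normalCore_le H), ?_⟩
  intro h hh'
  have hh := (hmem h).mp (Subgroup.mem_inf.mp hh').2
  rw [Matrix.norm_le_iff (by positivity)]
  intro i j
  have h1 : (cm ρ h - 1) i j =
      ic (ρ h i j - (1 : Matrix (Fin N) (Fin N) ℤ_[2]) i j) := by
    rw [Matrix.sub_apply, cm_apply, Matrix.map_apply, map_sub]
    congr 1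
    rw [← Matrix.map_apply (f := ic),
      Matrix.map_one _ (map_zero _) (map_one _)]
  rw [h1, norm_c2]
  refine (hh i j).trans (le_of_eq ?_)
  have h2 : ((2 : ℕ) : ℂ_[2]) = ic ((2 : ℕ) : ℤ_[2]) := by
    rw [map_natCast]
  rw [h2, norm_c2, PadicInt.norm_p]
  norm_num

theorem sd_core {G R : Type*} [Group G] [TopologicalSpace G] [IsTopologicalGroup G]
    [CompactSpace G] [Fintype R] {m : R → ℕ} {N : ℕ} (ρ : G →* Matrix (Fin N) (Fin N) ℤ_[2])
    (hρ : Continuous ρ) (π : ∀ r, G →* Perm (Fin (m r)))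
    (hπ : ∀ r, IsOpen ((π r).ker : Set G)) (hm8 : ∀ r, 8 ≤ m r) (hme : ∀ r, Even (m r))
    (hN : N = ∑ r, (m r - 2))
    (htr : ∀ g, PadicInt.toZMod (ρ g).trace = ∑ r, (ES.fx (π r g) : ZMod 2))
    (h3 : ∀ r c, Perm.IsThreeCycle c → ∃ g, π r g = c ∧ ∀ r', r' ≠ r → π r' g = 1)
    (J : Matrix (Fin N) (Fin N) ℚ_[2]) (hJ : J.transpose = J) (hJ0 : J.det ≠ 0)
    (hJρ : ∀ g, ((ρ g).map (algebraMap ℤ_[2] ℚ_[2])).transpose * J *
      (ρ g).map (algebraMap ℤ_[2] ℚ_[2]) = J) (H : Subgroup G)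
    (hH : IsOpen (H : Set G)) : ∃ h ∈ H, (1 - cm ρ h).det ≠ 0 := by
  obtain ⟨H', hn', hf', hle, hsm⟩ := small ρ hρ H hH
  obtain ⟨W, h1, h2, h4, h5, h6⟩ := ES.es_big ρ hρ π hπ hm8 hme hN htr h3 J hJ hJ0 hJρ H' hn' hsm
  have hp0 : ((2 : ℕ) : ℂ_[2]) ≠ 0 := by
    rw [Nat.cast_ne_zero]
    norm_num
  have hp : ‖((2 : ℕ) : ℂ_[2])‖ < 1 := by
    have h2 : ((2 : ℕ) : ℂ_[2]) = ic ((2 : ℕ) : ℤ_[2]) := by
      rw [map_natCast]
    rw [h2, norm_c2, PadicInt.norm_p]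
    norm_num
  set JC : Matrix (Fin N) (Fin N) ℂ_[2] := J.map (algebraMap ℚ_[2] ℂ_[2]) with hJC
  have hJCt : JC.transpose = JC := by rw [hJC, ← Matrix.transpose_map, hJ]
  have hJC0 : JC.det ≠ 0 := by
    have h1 : JC.det = algebraMap ℚ_[2] ℂ_[2] J.det := by
      rw [RingHom.map_det]
      rfl
    rw [h1, map_ne_zero_iff _ (algebraMap ℚ_[2] ℂ_[2]).injective]
    exact hJ0
  obtain ⟨hs, hn⟩ := ES.form_of JC hJCt hJC0
  have hb : ∀ g x y, Matrix.toBilin' JC ((cm ρ g).mulVec x) ((cm ρ g).mulVec y) =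
      Matrix.toBilin' JC x y := by
    intro g x y
    apply ES.form_inv
    have h1 : cm ρ g = ((ρ g).map (algebraMap ℤ_[2] ℚ_[2])).map (algebraMap ℚ_[2] ℂ_[2]) := rfl
    rw [h1, hJC, ← Matrix.transpose_map, ← Matrix.map_mul, ← Matrix.map_mul, hJρ]
  obtain ⟨h, hh, hdet⟩ := lo_end' hp0 hp (cm ρ) H' hsm (Matrix.toBilin' JC) hs hn
    (fun g _ => hb g) W h1 h2 (fun r g _ => h4 r g) h5 h6
  exact ⟨h, hle hh, hdet⟩

end Pool.Agent.SD
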