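import Mathlib

/-!
# Elements of order three and rank two: definitions (MP_97f789_ag, strong form)
-/

set_option autoImplicit false

namespace Pool.Agent.SD

/-- The number of fixed points. -/
def fxp {n : ℕ} (π : Equiv.Perm (Fin n)) : ℕ := Fintype.card {x // π x = x}

/-- The endomorphism `f` has order dividing three and `f - 1` has rank two. -/
def Three {K V : Type*} [Field K] [AddCommGroup V] [Module K V] (f : Module.End K V) : Prop :=
  f * f * f = 1 ∧ Module.finrank K (LinearMap.range (f - 1)) = 2

/-- The orthogonal map `v ↦ b(y,v) x - b(x,v) y`. -/
noncomputable def wedge {K V : Type*} [Field K] [AddCommGroup V] [Module K V]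
    (b : LinearMap.BilinForm K V) (x y : V) : Module.End K V :=
  (b y).smulRight x - (b x).smulRight y

end Pool.Agent.SD
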