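import Mathlib

/-!
# Stable lattices (MP_97f789_ag, strong form of EllipticSurfaces)
-/

set_option autoImplicit false

namespace Pool.Agent.SD

open Module

/-- A continuous representation of a compact group on `ℚ_p ^ N` has a stable lattice. -/
theorem sl_lattice {G : Type*} [Group G] [TopologicalSpace G] [CompactSpace G] {p : ℕ}
    [Fact p.Prime] {N : ℕ} (ρ : G →* Matrix (Fin N) (Fin N) ℚ_[p]) (hρ : Continuous ρ) :
    ∃ (P Q : Matrix (Fin N) (Fin N) ℚ_[p]) (ρ' : G →* Matrix (Fin N) (Fin N) ℤ_[p]),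
      P * Q = 1 ∧ Q * P = 1 ∧ Continuous ρ' ∧
        ∀ g, (ρ' g).map (algebraMap ℤ_[p] ℚ_[p]) = Q * ρ g * P := by
  classical
  -- the entries are bounded
  obtain ⟨C, hC⟩ : ∃ C : ℝ, ∀ g i j, ‖ρ g i j‖ ≤ C := by
    have h1 : ∀ i j, Continuous fun g => ρ g i j := fun i j =>
      (continuous_apply j).comp ((continuous_apply i).comp hρ)
    have h2 : ∀ i j, ∃ C : ℝ, ∀ g, ‖ρ g i j‖ ≤ C := by
      intro i j
      obtain ⟨C, hC⟩ := isCompact_univ.exists_bound_of_continuousOn (h1 i j).continuousOn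
      exact ⟨C, fun g => hC g (Set.mem_univ g)⟩
    choose C hC using h2
    refine ⟨∑ i, ∑ j, |C i j|, ?_⟩
    intro g i j
    calc ‖ρ g i j‖ ≤ |C i j| := (hC i j g).trans (le_abs_self _)
      _ ≤ ∑ j, |C i j| := Finset.single_le_sum (f := fun j => |C i j|)
          (fun _ _ => abs_nonneg _) (Finset.mem_univ j)
      _ ≤ ∑ i, ∑ j, |C i j| := Finset.single_le_sum (f := fun i => ∑ j, |C i j|)
          (fun _ _ => Finset.sum_nonneg fun _ _ => abs_nonneg _) (Finset.mem_univ i)
  have hp1 : (1 : ℝ) < p := by exact_mod_cast (Fact.out : p.Prime).one_lt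
  obtain ⟨m, hm⟩ := pow_unbounded_of_one_lt C hp1
  have hpm : ∀ g i j, ‖(p : ℚ_[p]) ^ m * ρ g i j‖ ≤ 1 := by
    intro g i j
    rw [norm_mul, norm_pow, Padic.norm_p, inv_pow]
    have h1 : ‖ρ g i j‖ ≤ (p : ℝ) ^ m := (hC g i j).trans hm.le
    have h2 : (0 : ℝ) < (p : ℝ) ^ m := by positivity
    rw [inv_mul_le_iff₀ h2, mul_one]
    exact h1
  have hp0 : (p : ℚ_[p]) ≠ 0 := by exact_mod_cast (Fact.out : p.Prime).ne_zero
  -- the lattice
  set L : Submodule ℤ_[p] (Fin N → ℚ_[p]) :=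
    Submodule.span ℤ_[p] {v | ∃ g i, v = (ρ g).mulVec (Pi.single i 1)} with hL
  let S : (Fin N → ℤ_[p]) →ₗ[ℤ_[p]] (Fin N → ℚ_[p]) :=
    { toFun := fun w i => ((p : ℚ_[p]) ^ m)⁻¹ * algebraMap ℤ_[p] ℚ_[p] (w i)
      map_add' := by
        intro w w'
        funext i
        simp only [Pi.add_apply, map_add, mul_add]
      map_smul' := by
        intro c w
        funext i
        simp only [Pi.smul_apply, smul_eq_mul, map_mul, RingHom.id_apply, Algebra.smul_def]
        ring }
  have hLS : L ≤ LinearMap.range S := by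
    rw [hL, Submodule.span_le]
    rintro _ ⟨g, i, rfl⟩
    refine ⟨fun j => ⟨(p : ℚ_[p]) ^ m * ρ g j i, hpm g j i⟩, ?_⟩
    funext j
    change ((p : ℚ_[p]) ^ m)⁻¹ * ((p : ℚ_[p]) ^ m * ρ g j i) = _
    rw [← mul_assoc, inv_mul_cancel₀ (pow_ne_zero _ hp0), one_mul]
    simp
  have hfg : L.FG := by
    have h1 : IsNoetherian ℤ_[p] (LinearMap.range S) := inferInstance
    have h2 : IsNoetherian ℤ_[p] L := isNoetherian_of_le hLS
    rw [← Module.Finite.iff_fg]
    infer_instance
  have hLL : Submodule.IsLattice ℚ_[p] L := by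
    refine ⟨hfg, ?_⟩
    rw [eq_top_iff]
    intro v _
    have h1 : v = ∑ i, v i • (Pi.single i 1 : Fin N → ℚ_[p]) := by
      funext j
      simp [Finset.sum_apply, Pi.single_apply]
    rw [h1]
    refine Submodule.sum_mem _ fun i _ => Submodule.smul_mem _ _ (Submodule.subset_span ?_)
    refine Submodule.subset_span ⟨1, i, ?_⟩
    rw [map_one, Matrix.one_mulVec]
  have hrank : finrank ℤ_[p] L = N := by
    rw [Submodule.IsLattice.finrank_of_pi (K := ℚ_[p]) L, Fintype.card_fin]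
  have hfree : Module.Free ℤ_[p] L := Submodule.IsLattice.free ℚ_[p] L
  have hfin : Module.Finite ℤ_[p] L := Submodule.IsLattice.finite ℚ_[p] L
  let b : Basis (Fin N) ℤ_[p] L := Module.finBasisOfFinrankEq ℤ_[p] L hrank
  let bK : Basis (Fin N) ℚ_[p] (Fin N → ℚ_[p]) := b.extendOfIsLattice ℚ_[p]
  -- the action
  have hact : ∀ g, ∀ v ∈ L, (ρ g).mulVec v ∈ L := by
    intro g v hv
    rw [hL] at hv
    induction hv using Submodule.span_induction with
    | mem v hv =>
      obtain ⟨h, i, rfl⟩ := hv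
      rw [Matrix.mulVec_mulVec, ← map_mul]
      exact Submodule.subset_span ⟨g * h, i, rfl⟩
    | zero => rw [Matrix.mulVec_zero]; exact L.zero_mem
    | add v w _ _ h1 h2 => rw [Matrix.mulVec_add]; exact L.add_mem h1 h2
    | smul c v _ h1 =>
      have h2 : (ρ g).mulVec (c • v) = c • (ρ g).mulVec v := by
        rw [algebra_compatible_smul ℚ_[p] c v, Matrix.mulVec_smul, ← algebra_compatible_smul]
      rw [h2]
      exact L.smul_mem _ h1
  let r : G →* Module.End ℤ_[p] L :=
    { toFun := fun g => (((ρ g).mulVecLin).restrictScalars ℤ_[p]).restrict (hact g)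
      map_one' := by
        apply LinearMap.ext
        intro v
        apply Subtype.ext
        change (ρ 1).mulVec (v : Fin N → ℚ_[p]) = v
        rw [map_one, Matrix.one_mulVec]
      map_mul' := by
        intro g h
        apply LinearMap.ext
        intro v
        apply Subtype.ext
        change (ρ (g * h)).mulVec (v : Fin N → ℚ_[p]) = (ρ g).mulVec ((ρ h).mulVec v)
        rw [map_mul, Matrix.mulVec_mulVec] }
  have hr : ∀ g (v : L), ((r g v : L) : Fin N → ℚ_[p]) = (ρ g).mulVec v := fun _ _ => rfl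
  let ρ' : G →* Matrix (Fin N) (Fin N) ℤ_[p] :=
    ((LinearMap.toMatrixAlgEquiv b : Module.End ℤ_[p] L ≃ₐ[ℤ_[p]] _) : _ →* _).comp r
  have hρ' : ∀ g i j, ρ' g i j = b.repr (r g (b j)) i := by
    intro g i j
    exact LinearMap.toMatrixAlgEquiv_apply b (r g) i j
  set P : Matrix (Fin N) (Fin N) ℚ_[p] := (Pi.basisFun ℚ_[p] (Fin N)).toMatrix bK with hP
  set Q : Matrix (Fin N) (Fin N) ℚ_[p] := bK.toMatrix (Pi.basisFun ℚ_[p] (Fin N)) with hQ
  have hPQ : P * Q = 1 := Basis.toMatrix_mul_toMatrix_flip _ _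
  have hQP : Q * P = 1 := Basis.toMatrix_mul_toMatrix_flip _ _
  have hPe : ∀ i j, P i j = ((b j : L) : Fin N → ℚ_[p]) i := by
    intro i j
    rw [hP, Basis.toMatrix_apply, Pi.basisFun_repr, Basis.extendOfIsLattice_apply]
  have hrel : ∀ g, P * (ρ' g).map (algebraMap ℤ_[p] ℚ_[p]) = ρ g * P := by
    intro g
    ext i j
    rw [Matrix.mul_apply, Matrix.mul_apply]
    have h1 : ((r g (b j) : L) : Fin N → ℚ_[p]) =
        ∑ k, b.repr (r g (b j)) k • ((b k : L) : Fin N → ℚ_[p]) := by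
      conv_lhs => rw [← b.sum_repr (r g (b j))]
      rw [Submodule.coe_sum]
      rfl
    have h2 := congrFun h1 i
    rw [hr, Matrix.mulVec, dotProduct, Finset.sum_apply] at h2
    simp only [hPe, Matrix.map_apply, hρ']
    rw [h2]
    refine Finset.sum_congr rfl fun k _ => ?_
    rw [Pi.smul_apply, Algebra.smul_def, mul_comm]
  have hrel2 : ∀ g, (ρ' g).map (algebraMap ℤ_[p] ℚ_[p]) = Q * ρ g * P := by
    intro g
    rw [Matrix.mul_assoc, ← hrel, ← Matrix.mul_assoc, hQP, Matrix.one_mul]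
  refine ⟨P, Q, ρ', hPQ, hQP, ?_, hrel2⟩
  refine continuous_matrix fun i j => ?_
  have h2 : Continuous fun g => Q * ρ g * P :=
    (continuous_const.matrix_mul hρ).matrix_mul continuous_const
  have h3 : Continuous fun g => (Q * ρ g * P) i j :=
    (continuous_apply j).comp ((continuous_apply i).comp h2)
  have h1 : (fun g => (Q * ρ g * P) i j) = fun g => ((ρ' g i j : ℤ_[p]) : ℚ_[p]) := by
    funext g
    rw [← hrel2]
    rfl
  rw [h1] at h3
  exact continuous_induced_rng.mpr h3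

end Pool.Agent.SD
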