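import Pool.Agent.Lib_helper11.SD.Defs
import Pool.Agent.Lib_helper7.TB.Lie

/-!
# Logarithms of orthogonal matrices (MP_97f789_ag, strong form of EllipticSurfaces)
-/

set_option autoImplicit false

namespace Pool.Agent.SD

open Module Filter Topology Pool.Agent.TBL

section

variable {k : Type*} [NontriviallyNormedField k] [IsUltrametricDist k] [CompleteSpace k]
  {n : Type*} [Fintype n] [DecidableEq n]

attribute [local instance] matRing matAlg matUltra matComplete

omit [CompleteSpace k] in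
theorem lo_mulVec (M : Matrix n n k) (v : n → k) : ‖M.mulVec v‖ ≤ ‖M‖ * ‖v‖ := by
  rw [pi_norm_le_iff_of_nonneg (by positivity)]
  intro i
  rw [Matrix.mulVec, dotProduct]
  refine IsUltrametricDist.norm_sum_le_of_forall_le_of_nonneg (by positivity) fun j _ => ?_
  rw [norm_mul]
  exact mul_le_mul (Matrix.norm_entry_le_entrywise_sup_norm M) (norm_le_pi_norm v j)
    (norm_nonneg _) (norm_nonneg _)

omit [CompleteSpace k] in
theorem lo_pow (x : Matrix n n k) (hx : ‖x‖ ≤ 1) (m : ℕ) :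
    ∃ y : Matrix n n k, (1 + x) ^ m = 1 + (m : k) • x + y * x ∧ ‖y‖ ≤ ‖x‖ := by
  induction m with
  | zero => exact ⟨0, by simp, by simp⟩
  | succ m ih =>
    obtain ⟨y, h1, h2⟩ := ih
    refine ⟨(m : k) • x + y + x * y, ?_, ?_⟩
    · rw [pow_succ', h1]
      simp only [Nat.cast_succ, add_smul, one_smul, mul_add, add_mul, one_mul, mul_one,
        Algebra.smul_mul_assoc, Algebra.mul_smul_comm, mul_assoc, smul_add]
      abel
    · refine norm_add_le3 _ _ _ ?_ h2 ?_
      · rw [norm_smul]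
        exact mul_le_of_le_one_left (norm_nonneg _) (IsUltrametricDist.norm_natCast_le_one k m)
      · exact (norm_mul_le _ _).trans
          ((mul_le_of_le_one_left (norm_nonneg _) hx).trans h2)

variable {p : ℕ} (hp0 : (p : k) ≠ 0) (hp : ‖(p : k)‖ < 1)

include hp0 hp in
omit [CompleteSpace k] in
theorem lo_step {a : Matrix n n k} (ha : ‖a - 1‖ ≤ ‖(p : k)‖ ^ 2) (v : n → k) :
    ‖(a ^ p - 1).mulVec v‖ = ‖(p : k)‖ * ‖(a - 1).mulVec v‖ := by
  have hq := norm_nonneg (p : k)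
  have hq0 : 0 < ‖(p : k)‖ := norm_pos_iff.2 hp0
  have h1 : ‖a - 1‖ ≤ 1 := ha.trans (pow_le_one₀ hq hp.le)
  obtain ⟨y, h2, h3⟩ := lo_pow (a - 1) h1 p
  have h4 : a ^ p - 1 = (p : k) • (a - 1) + y * (a - 1) := by
    rw [add_sub_cancel] at h2
    rw [h2]
    abel
  rw [h4, Matrix.add_mulVec, Matrix.smul_mulVec, ← Matrix.mulVec_mulVec]
  set w := (a - 1).mulVec v with hw
  by_cases hw0 : w = 0
  · rw [hw0]
    simp
  have hw1 : 0 < ‖w‖ := norm_pos_iff.2 hw0
  have h5 : ‖y.mulVec w‖ < ‖(p : k) • w‖ := by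
    rw [norm_smul]
    refine (lo_mulVec y w).trans_lt ?_
    refine mul_lt_mul_of_pos_right ?_ hw1
    refine (h3.trans ha).trans_lt ?_
    rw [pow_two]
    exact mul_lt_of_lt_one_left hq0 hp
  have h6 : ‖(p : k) • w + y.mulVec w‖ = max ‖(p : k) • w‖ ‖y.mulVec w‖ :=
    IsUltrametricDist.norm_add_eq_max_of_norm_ne_norm h5.ne'
  rw [h6, max_eq_left h5.le, norm_smul]

include hp0 hp in
omit [CompleteSpace k] in
theorem lo_dq {a : Matrix n n k} (ha : ‖a - 1‖ ≤ ‖(p : k)‖ ^ 2) (v : n → k) (m : ℕ) :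
    ‖(dq k p a m).mulVec v‖ = ‖(a - 1).mulVec v‖ := by
  have hq0 : 0 < ‖(p : k)‖ := norm_pos_iff.2 hp0
  have h1 : ∀ m : ℕ, ‖(a ^ p ^ m - 1).mulVec v‖ = ‖(p : k)‖ ^ m * ‖(a - 1).mulVec v‖ := by
    intro m
    induction m with
    | zero => simp
    | succ m ih =>
      have h2 : ‖a ^ p ^ m - 1‖ ≤ ‖(p : k)‖ ^ 2 :=
        (norm_pow_pow_sub_one_le hp ha m).trans ((mul_le_of_le_one_left (norm_nonneg _)
          (pow_le_one₀ (norm_nonneg _) hp.le)).trans ha)
      rw [pow_succ p m, pow_mul, lo_step hp0 hp h2, ih, pow_succ']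
      ring
  rw [dq, Matrix.smul_mulVec, norm_smul, h1, norm_inv, norm_pow, ← mul_assoc,
    inv_mul_cancel₀ (pow_ne_zero _ hq0.ne'), one_mul]

omit [DecidableEq n] in
/-- Linear maps on matrices are continuous. -/
theorem lo_lin {E : Type*} [NormedAddCommGroup E] [NormedSpace k E]
    (f : Matrix n n k →ₗ[k] E) : Continuous f :=
  LinearMap.continuous_of_finiteDimensional f

include hp0 hp in
/-- The vectors killed by the logarithm are the fixed vectors. -/
theorem lo_fix {a : Matrix n n k} (ha : ‖a - 1‖ ≤ ‖(p : k)‖ ^ 2) (v : n → k) :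
    (lg k p a).mulVec v = 0 ↔ a.mulVec v = v := by
  have h1 : Tendsto (fun m => (dq k p a m).mulVec v) atTop (𝓝 ((lg k p a).mulVec v)) :=
    ((lo_lin ((Matrix.mulVecBilin k k).flip v)).tendsto _).comp (tendsto_dq hp0 hp ha)
  have h2 : ‖(lg k p a).mulVec v‖ = ‖(a - 1).mulVec v‖ := by
    refine tendsto_nhds_unique h1.norm (tendsto_const_nhds.congr fun m => ?_)
    rw [lo_dq hp0 hp ha]
  rw [← norm_eq_zero, h2, norm_eq_zero, Matrix.sub_mulVec, Matrix.one_mulVec, sub_eq_zero]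

variable {G : Type*} [Group G] (A : G →* Matrix n n k) (H : Subgroup G)

include hp0 hp in
/-- Logarithms of orthogonal matrices are skew. -/
theorem lo_skew (hN : ∀ h ∈ H, ‖A h - 1‖ ≤ ‖(p : k)‖ ^ 2)
    (b : LinearMap.BilinForm k (n → k)) (hb : ∀ g ∈ H, ∀ x y,
      b ((A g).mulVec x) ((A g).mulVec y) = b x y) {X : Matrix n n k} (hX : X ∈ sp A H p)
    (x y : n → k) : b (X.mulVec x) y = -b x (X.mulVec y) := by
  induction hX using Submodule.span_induction with
  | mem X hX =>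
    obtain ⟨h, hh, rfl⟩ := hX
    have h1 := tendsto_dq (k := k) hp0 hp (hN _ hh)
    have h2 := tendsto_pow_pow (k := k) hp (hN _ (H.inv_mem hh))
    have h3 : Tendsto (fun m => b ((dq k p (A h) m).mulVec x) y) atTop
        (𝓝 (b ((lg k p (A h)).mulVec x) y)) :=
      ((lo_lin ((b.flip y).comp ((Matrix.mulVecBilin k k).flip x))).tendsto _).comp h1
    have h4 : Tendsto (fun m => -b x ((A h⁻¹ ^ p ^ m * dq k p (A h) m).mulVec y)) atTop
        (𝓝 (-b x ((1 * lg k p (A h)).mulVec y))) :=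
      (((lo_lin ((b x).comp ((Matrix.mulVecBilin k k).flip y))).tendsto _).comp (h2.mul h1)).neg
    rw [one_mul] at h4
    refine tendsto_nhds_unique h3 (h4.congr fun m => ?_)
    have h5 : A h⁻¹ ^ p ^ m * A h ^ p ^ m = 1 := by
      rw [← map_pow, ← map_pow, ← map_mul, inv_pow, inv_mul_cancel, map_one]
    rw [dq, mul_smul_comm, mul_sub, h5, mul_one, Matrix.smul_mulVec, Matrix.smul_mulVec,
      map_smul, map_smul, LinearMap.smul_apply, ← smul_neg]
    congr 1
    rw [Matrix.sub_mulVec, Matrix.sub_mulVec, Matrix.one_mulVec, Matrix.one_mulVec, map_sub,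
      map_sub, LinearMap.sub_apply, neg_sub]
    congr 1
    have h6 := hb (h ^ p ^ m) (H.pow_mem hh _) x ((A h⁻¹ ^ p ^ m).mulVec y)
    have h7 : A (h ^ p ^ m) * A h⁻¹ ^ p ^ m = 1 := by
      rw [← map_pow, ← map_mul, inv_pow, mul_inv_cancel, map_one]
    rw [Matrix.mulVec_mulVec, h7, Matrix.one_mulVec, map_pow] at h6
    exact h6.symm
  | zero => simp
  | add X Y _ _ hX hY =>
    rw [Matrix.add_mulVec, Matrix.add_mulVec, map_add, map_add, LinearMap.add_apply, hX, hY]
    ring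
  | smul c X _ hX =>
    rw [Matrix.smul_mulVec, Matrix.smul_mulVec, map_smul, map_smul, LinearMap.smul_apply, hX,
      smul_neg]

include hp0 hp in
/-- Logarithms preserve stable subspaces. -/
theorem lo_pres (hN : ∀ h ∈ H, ‖A h - 1‖ ≤ ‖(p : k)‖ ^ 2) (W : Submodule k (n → k))
    (hW : ∀ g ∈ H, ∀ v ∈ W, (A g).mulVec v ∈ W) {X : Matrix n n k} (hX : X ∈ sp A H p) (v : n → k)
    (hv : v ∈ W) : X.mulVec v ∈ W := by
  induction hX using Submodule.span_induction with
  | mem X hX =>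
    obtain ⟨h, hh, rfl⟩ := hX
    have h1 : Tendsto (fun m => (dq k p (A h) m).mulVec v) atTop (𝓝 ((lg k p (A h)).mulVec v)) :=
      ((lo_lin ((Matrix.mulVecBilin k k).flip v)).tendsto _).comp (tendsto_dq hp0 hp (hN h hh))
    refine (Submodule.closed_of_finiteDimensional W).mem_of_tendsto h1
      (Eventually.of_forall fun m => ?_)
    rw [dq, Matrix.smul_mulVec, Matrix.sub_mulVec, Matrix.one_mulVec, ← map_pow]
    exact W.smul_mem _ (W.sub_mem (hW _ (H.pow_mem hh _) v hv) hv)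
  | zero => simp
  | add X Y _ _ hX hY =>
    rw [Matrix.add_mulVec]
    exact W.add_mem hX hY
  | smul c X _ hX =>
    rw [Matrix.smul_mulVec]
    exact W.smul_mem _ hX

end

end Pool.Agent.SD
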