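import Pool.Agent.Lib_helper11.SD.Core
import Pool.Agent.Lib_helper11.SD.Act
import Pool.Agent.Lib_helper11.SD.Lattice
import Pool.Agent.Lib_helper11.TD.Main

/-!
# No Tate classes on elliptic surfaces with a section of order two: the strong form
(MP_97f789_ag)
-/

set_option autoImplicit false

namespace Pool.Agent.SD

open NumberField Polynomial Equiv Pool.Agent.TT Pool.Agent.TD

section perm

/-- The permutations of `Fin k` given by an action on a set with `k` elements. -/
noncomputable def tr {G X : Type*} [Group G] (π : G →* Perm X) {k : ℕ} (e : X ≃ Fin k) :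
    G →* Perm (Fin k) :=
  (e.permCongrHom.toMonoidHom).comp π

variable {G X : Type*} [Group G] (π : G →* Perm X) {k : ℕ} (e : X ≃ Fin k)

theorem tr_apply (g : G) (x : Fin k) : tr π e g x = e (π g (e.symm x)) := rfl

theorem tr_ker : (tr π e).ker = π.ker := by
  ext g
  rw [MonoidHom.mem_ker, MonoidHom.mem_ker]
  constructor
  · intro h
    apply Equiv.ext
    intro x
    have h1 := congrArg (fun f => f (e x)) h
    simp only [tr_apply, e.symm_apply_apply, Perm.one_apply] at h1
    exact e.injective h1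
  · intro h
    apply Equiv.ext
    intro x
    rw [tr_apply, h, Perm.one_apply, e.apply_symm_apply, Perm.one_apply]

theorem tr_fx (g : G) : ES.fx (tr π e g) = Nat.card {x // π g x = x} := by
  rw [ES.fx, ← Nat.card_eq_fintype_card]
  apply Nat.card_congr
  refine e.symm.subtypeEquiv ?_
  intro x
  rw [tr_apply, ← e.eq_symm_apply]

/-- A permutation of a set with two elements has an even number of fixed points. -/
theorem two_fx (h2 : Nat.card X = 2) (f : Perm X) : (Nat.card {x // f x = x} : ZMod 2) = 0 := by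
  classical
  have hfin : Finite X := Nat.finite_of_card_ne_zero (by rw [h2]; norm_num)
  let _ : Fintype X := Fintype.ofFinite X
  rw [Nat.card_eq_fintype_card] at h2 ⊢
  have h3 : Fintype.card {x // f x = x} = Fintype.card X - f.support.card := by
    rw [Fintype.card_subtype]
    have h4 : Finset.univ.filter (fun x => f x = x) = f.supportᶜ := by
      ext x
      rw [Finset.mem_filter, Finset.mem_compl, Perm.notMem_support]
      simp
    rw [h4, Finset.card_compl]
  have h4 := f.card_support_ne_one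
  have h5 : f.support.card ≤ 2 := by
    rw [← h2]
    exact Finset.card_le_univ _
  rw [h3, h2]
  have h6 : f.support.card = 0 ∨ f.support.card = 2 := by omega
  rcases h6 with h6 | h6
  · rw [h6]
    decide
  · rw [h6]
    decide

end perm

theorem three {K : Type} [Field K] [Algebra K Qbar] {m m' : ℕ} {P P' : (𝓞 K)[X]} {k : ℕ}
    (e : pz m P ≃ Fin k) (h : ThreeCycles K (pz m P) (pz m' P')) (c : Perm (Fin k))
    (hc : c.IsThreeCycle) :
    ∃ σ : Qbar ≃ₐ[K] Qbar, tr (pact m P) e σ = c ∧ pact m' P' σ = 1 := by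
  classical
  obtain ⟨x, hx⟩ : ∃ x, c x ≠ x := by
    by_contra hcon
    push Not at hcon
    have h1 : c = 1 := Equiv.ext hcon
    rw [h1] at hc
    exact hc.ne_one rfl
  have h3 : c (c (c x)) = x := by
    have h4 : c ^ 3 = 1 := by
      rw [← hc.orderOf]
      exact pow_orderOf_eq_one c
    have h5 := congrArg (fun f : Perm (Fin k) => f x) h4
    exact h5
  have hxy : x ≠ c x := fun h => hx h.symm
  have hyz : c x ≠ c (c x) := fun h => hxy (c.injective h)
  have hzx : c (c x) ≠ x := by
    intro h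
    apply hx
    have h4 := congrArg c h
    rw [h3] at h4
    exact h4.symm
  have hsupp : ∀ w, w ≠ x → w ≠ c x → w ≠ c (c x) → c w = w := by
    intro w h1 h2 h4
    by_contra h5
    have h6 : ({w, x, c x, c (c x)} : Finset (Fin k)) ⊆ c.support := by
      intro u hu
      simp only [Finset.mem_insert, Finset.mem_singleton] at hu
      rw [Perm.mem_support]
      rcases hu with rfl | rfl | rfl | rfl
      · exact h5
      · exact hx
      · exact hyz.symm
      · rw [h3]
        exact hzx.symm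
    have h7 := Finset.card_le_card h6
    rw [hc.card_support] at h7
    rw [Finset.card_insert_of_notMem, Finset.card_insert_of_notMem, Finset.card_insert_of_notMem,
      Finset.card_singleton] at h7
    · omega
    · rw [Finset.mem_singleton]
      exact hyz
    · rw [Finset.mem_insert, Finset.mem_singleton, not_or]
      exact ⟨hxy, hzx.symm⟩
    · simp only [Finset.mem_insert, Finset.mem_singleton, not_or]
      exact ⟨h1, h2, h4⟩
  have hv : ∀ u w : Fin k, u ≠ w → ((e.symm u : pz m P) : Option Qbar) ≠ e.symm w := by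
    intro u w huw h
    exact huw (e.symm.injective (Subtype.ext h))
  obtain ⟨σ, h1, h2, h4, h5, h6⟩ := h _ (e.symm x).2 _ (e.symm (c x)).2 _ (e.symm (c (c x))).2
    (hv _ _ hxy) (hv _ _ hyz) (hv _ _ hzx)
  refine ⟨σ, ?_, pact_one h6⟩
  apply Equiv.ext
  intro w
  rw [tr_apply, ← e.eq_symm_apply, ← Subtype.val_inj, pact_apply]
  by_cases hw1 : w = x
  · rw [hw1]
    exact h1
  by_cases hw2 : w = c x
  · rw [hw2]
    exact h2
  by_cases hw3 : w = c (c x)
  · rw [hw3, h3]
    exact h4
  rw [hsupp w hw1 hw2 hw3]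
  exact h5 _ (e.symm w).2 (hv _ _ hw1) (hv _ _ hw2) (hv _ _ hw3)

theorem pz_zero {K : Type} [Field K] [Algebra K Qbar] {m : ℕ} {P : (𝓞 K)[X]}
    (h : (pz m P).ncard ≠ 0) : P ≠ 0 := by
  rintro rfl
  apply h
  have h1 : pz m (0 : (𝓞 K)[X]) = Set.univ := by
    ext z
    cases z with
    | none => simp [pz]
    | some β => simp [pz]
  have h2 : Infinite (Option Qbar) := inferInstance
  rw [h1, Set.ncard_univ, Nat.card_eq_zero_of_infinite]

/-- Sums over the indices with a nonzero contribution. -/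
theorem sum_sub {M : Type*} [AddCommMonoid M] (p : Bool → Prop) [DecidablePred p] (f : Bool → M)
    (h : ∀ r, ¬ p r → f r = 0) : ∑ r : {r : Bool // p r}, f r.1 = f false + f true := by
  rw [← Finset.sum_subtype (Finset.univ.filter p) (by simp) f, Finset.sum_filter,
    Finset.sum_congr rfl (g := f) (by
      intro r _
      split_ifs with hr
      · rfl
      · exact (h r hr).symm)]
  rw [Fintype.sum_bool, add_comm]

theorem main {K : Type} [Field K] [NumberField K] [Algebra K Qbar] {n : ℕ}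
    (A B : (𝓞 K)[X]) (hA : A.natDegree ≤ 2 * n)
    (hB : Large K (pz (4 * n) B) (pz (4 * n) (A ^ 2 - 4 * B)))
    (hD : Large K (pz (4 * n) (A ^ 2 - 4 * B)) (pz (4 * n) B)) {N : ℕ}
    (hN : N + 4 = (pz (4 * n) B).ncard + (pz (4 * n) (A ^ 2 - 4 * B)).ncard)
    (ρ : (Qbar ≃ₐ[K] Qbar) →* Matrix (Fin N) (Fin N) ℚ_[2])
    (hρ : Continuous ρ) (hρt : HasTraces (fun σ => (ρ σ).trace) n A B)
    (J : Matrix (Fin N) (Fin N) ℚ_[2]) (hJ : J.transpose = J)
    (hJ0 : J.det ≠ 0) (hJρ : ∀ σ, (ρ σ).transpose * J * ρ σ = J)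
    {ℓ : ℕ} [Fact ℓ.Prime] {V : Type} [AddCommGroup V] [Module (PadicAlgCl ℓ) V]
    [FiniteDimensional (PadicAlgCl ℓ) V] (π : Representation (PadicAlgCl ℓ) (Qbar ≃ₐ[K] Qbar) V)
    (hπ : HasTraces (fun σ => LinearMap.trace (PadicAlgCl ℓ) V (π σ)) n A B)
    (H : Subgroup (Qbar ≃ₐ[K] Qbar)) (hH : IsOpen (H : Set (Qbar ≃ₐ[K] Qbar)))
    (W₁ W₂ : Submodule (PadicAlgCl ℓ) V) (hW : W₁ ≤ W₂)
    (hT : ∀ σ ∈ H, ∀ x ∈ W₂, π σ x - x ∈ W₁) : W₁ = W₂ := by
  classical
  by_contra hne
  have hgal := mn_galois (K := K)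
  -- the two sets of zeros
  let PP : Bool → (𝓞 K)[X] := fun r => bif r then A ^ 2 - 4 * B else B
  have hL : ∀ r, Large K (pz (4 * n) (PP r)) (pz (4 * n) (PP (!r))) := by
    intro r
    cases r
    · exact hB
    · exact hD
  have hcard0 : ∀ r, (pz (4 * n) (PP r)).ncard ≠ 0 := by
    intro r
    rcases hL r with h | h
    · rw [h]
      norm_num
    · have := h.1
      omega
  have hP0 : ∀ r, PP r ≠ 0 := fun r => pz_zero (hcard0 r)
  have hZfin : ∀ r, Finite (pz (4 * n) (PP r)) := fun r => pz_finite (hP0 r)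
  let R := {r : Bool // 8 ≤ (pz (4 * n) (PP r)).ncard}
  let m : R → ℕ := fun r => (pz (4 * n) (PP r.1)).ncard
  have he : ∀ r : R, Nonempty (pz (4 * n) (PP r.1) ≃ Fin (m r)) := fun r =>
    ⟨Finite.equivFinOfCardEq (Nat.card_coe_set_eq _)⟩
  let e : ∀ r : R, pz (4 * n) (PP r.1) ≃ Fin (m r) := fun r => (he r).some
  let a : ∀ r : R, (Qbar ≃ₐ[K] Qbar) →* Perm (Fin (m r)) := fun r =>
    tr (pact (4 * n) (PP r.1)) (e r)
  -- the lattice
  obtain ⟨P, Q, ρ', hPQ, hQP, hρ'c, hrel⟩ := sl_lattice ρ hρ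
  have htrace : ∀ g, (((ρ' g).trace : ℤ_[2]) : ℚ_[2]) = (ρ g).trace := by
    intro g
    have h1 : (((ρ' g).trace : ℤ_[2]) : ℚ_[2]) =
        ((ρ' g).map (algebraMap ℤ_[2] ℚ_[2])).trace := by
      change algebraMap ℤ_[2] ℚ_[2] ((ρ' g).trace) = _
      rw [Matrix.trace, Matrix.trace, map_sum]
      rfl
    rw [h1, hrel, Matrix.mul_assoc, Matrix.trace_mul_comm, Matrix.mul_assoc, hPQ, Matrix.mul_one]
  have htr : ∀ g, PadicInt.toZMod (ρ' g).trace = ∑ r : R, (ES.fx (a r g) : ZMod 2) := by
    intro g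
    have h1 : ∑ r : R, (ES.fx (a r g) : ZMod 2) =
        ∑ r : R, (fun r : Bool => (Nat.card {z : pz (4 * n) (PP r) //
          pact (4 * n) (PP r) g z = z} : ZMod 2)) r.1 := by
      refine Finset.sum_congr rfl fun r _ => ?_
      rw [tr_fx]
    rw [h1, sum_sub (fun r => 8 ≤ (pz (4 * n) (PP r)).ncard)
      (fun r : Bool => (Nat.card {z : pz (4 * n) (PP r) //
          pact (4 * n) (PP r) g z = z} : ZMod 2))]
    · have hcont : Continuous (fun σ => (ρ σ).trace) := Continuous.matrix_trace hρ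
      have h2 := sa_trace A B hA (hP0 false) (hP0 true) _ hcont hρt g
      rw [← pact_fix, ← pact_fix] at h2
      change ‖(ρ g).trace - _‖ < 1 at h2
      rw [← htrace] at h2
      have h3 : ‖(ρ' g).trace - ((Nat.card {z : pz (4 * n) B // pact (4 * n) B g z = z} : ℤ_[2]) +
          (Nat.card {z : pz (4 * n) (A ^ 2 - 4 * B) // pact (4 * n) (A ^ 2 - 4 * B) g z = z} :
            ℤ_[2]))‖ < 1 := by
        rw [PadicInt.norm_def]
        push_cast
        exact h2
      have h4 : PadicInt.toZMod ((ρ' g).trace -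
          ((Nat.card {z : pz (4 * n) B // pact (4 * n) B g z = z} : ℤ_[2]) +
          (Nat.card {z : pz (4 * n) (A ^ 2 - 4 * B) // pact (4 * n) (A ^ 2 - 4 * B) g z = z} :
            ℤ_[2]))) = 0 := by
        rw [← RingHom.mem_ker, PadicInt.ker_toZMod, IsLocalRing.mem_maximalIdeal,
          PadicInt.mem_nonunits]
        exact h3
      rw [map_sub, map_add, map_natCast, map_natCast, sub_eq_zero] at h4
      exact h4
    · intro r hr
      rcases hL r with h | h
      · exact two_fx (by rw [Nat.card_coe_set_eq, h]) _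
      · exact absurd h.1 hr
  -- the form
  set J' : Matrix (Fin N) (Fin N) ℚ_[2] := P.transpose * J * P with hJ'
  have hP0' : P.det ≠ 0 := by
    intro h
    have h1 := congrArg Matrix.det hPQ
    rw [Matrix.det_mul, h, zero_mul, Matrix.det_one] at h1
    exact zero_ne_one h1
  have hJ't : J'.transpose = J' := by
    rw [hJ', Matrix.transpose_mul, Matrix.transpose_mul, Matrix.transpose_transpose, hJ,
      Matrix.mul_assoc]
  have hJ'0 : J'.det ≠ 0 := by
    rw [hJ', Matrix.det_mul, Matrix.det_mul, Matrix.det_transpose]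
    exact mul_ne_zero (mul_ne_zero hP0' hJ0) hP0'
  have hJ'ρ : ∀ g, ((ρ' g).map (algebraMap ℤ_[2] ℚ_[2])).transpose * J' *
      (ρ' g).map (algebraMap ℤ_[2] ℚ_[2]) = J' := by
    intro g
    have h1 : P * (ρ' g).map (algebraMap ℤ_[2] ℚ_[2]) = ρ g * P := by
      rw [hrel, ← Matrix.mul_assoc, ← Matrix.mul_assoc, hPQ, Matrix.one_mul]
    calc ((ρ' g).map (algebraMap ℤ_[2] ℚ_[2])).transpose * J' *
          (ρ' g).map (algebraMap ℤ_[2] ℚ_[2])
        = (P * (ρ' g).map (algebraMap ℤ_[2] ℚ_[2])).transpose * J *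
          (P * (ρ' g).map (algebraMap ℤ_[2] ℚ_[2])) := by
          rw [hJ', Matrix.transpose_mul]
          simp only [Matrix.mul_assoc]
      _ = P.transpose * ((ρ g).transpose * J * ρ g) * P := by
          rw [h1, Matrix.transpose_mul]
          simp only [Matrix.mul_assoc]
      _ = J' := by rw [hJρ]
  have hcast : ∀ g, cm ρ' g = ((ρ' g).map (algebraMap ℤ_[2] ℚ_[2])).map
      (algebraMap ℚ_[2] ℂ_[2]) := fun g => rfl
  obtain ⟨h, hhH, hdet0⟩ := sd_core (m := m) ρ' hρ'c a
    (by
      intro r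
      rw [tr_ker]
      exact pact_open (4 * n) (hP0 r.1))
    (fun r => r.2)
    (by
      intro r
      rcases hL r.1 with h | h
      · have h1 := r.2
        rw [h] at h1
        omega
      · exact h.2.1)
    (by
      have h1 : ∑ r : R, (m r - 2) = ∑ r : R,
        (fun r : Bool => (pz (4 * n) (PP r)).ncard - 2) r.1 := rfl
      rw [h1, sum_sub (fun r => 8 ≤ (pz (4 * n) (PP r)).ncard)
        (fun r : Bool => (pz (4 * n) (PP r)).ncard - 2)]
      · have h2 : ∀ r, 2 ≤ (pz (4 * n) (PP r)).ncard := by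
          intro r
          rcases hL r with h | h
          · rw [h]
          · have := h.1
            omega
        have h3 := h2 false
        have h4 := h2 true
        change N = ((pz (4 * n) B).ncard - 2) + ((pz (4 * n) (A ^ 2 - 4 * B)).ncard - 2)
        change 2 ≤ (pz (4 * n) B).ncard at h3
        change 2 ≤ (pz (4 * n) (A ^ 2 - 4 * B)).ncard at h4
        omega
      · intro r hr
        rcases hL r with h | h
        · change (pz (4 * n) (PP r)).ncard - 2 = 0
          omega
        · exact absurd h.1 hr)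
    htr
    (by
      rintro ⟨r, hr⟩ c hc
      rcases hL r with h | h
      · rw [h] at hr
        omega
      obtain ⟨σ, h1, h2⟩ := three (e ⟨r, hr⟩) h.2.2 c hc
      refine ⟨σ, h1, ?_⟩
      rintro ⟨r', hr'⟩ hne'
      have h3 : r' = !r := by
        have h4 : r' ≠ r := fun h4 => hne' (Subtype.ext h4)
        have h5 : ∀ r r' : Bool, r' ≠ r → r' = !r := by decide
        exact h5 r r' h4
      subst h3
      have h4 : σ ∈ (a ⟨!r, hr'⟩).ker := by
        rw [tr_ker]
        exact h2
      exact h4)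
    J' hJ't hJ'0 hJ'ρ H hH
  have hdet := Pool.Agent.TB.tate_det (algebraMap ℚ ℂ_[2]) (algebraMap ℚ (PadicAlgCl ℓ))
    (fun _ : Fin 1 => N)
    (fun _ => ((algebraMap ℚ_[2] ℂ_[2]).mapMatrix.toMonoidHom).comp ρ)
    (by
      intro _
      have h1 : Continuous (algebraMap ℚ_[2] ℂ_[2]) := continuous_algebraMap ℚ_[2] ℂ_[2]
      have h2 : Continuous (fun σ => (ρ σ).map (algebraMap ℚ_[2] ℂ_[2])) :=
        Continuous.matrix_map hρ h1
      exact h2)
    π (td_compat A B ρ hρt π hπ) 0 H hH W₁ W₂ hW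
    (by
      intro s hs x hx
      rw [pow_zero, one_smul]
      exact hT s hs x hx) hne h hhH
  rw [Fin.prod_univ_one, pow_zero, one_smul] at hdet
  have hdet2 : (1 - ρ h).det = 0 := by
    have h1 : (1 - ((algebraMap ℚ_[2] ℂ_[2]).mapMatrix.toMonoidHom).comp ρ h).det =
        algebraMap ℚ_[2] ℂ_[2] (1 - ρ h).det := by
      rw [RingHom.map_det, map_sub, map_one]
      rfl
    rw [h1, map_eq_zero] at hdet
    exact hdet
  apply hdet0
  have h1 : 1 - (ρ' h).map (algebraMap ℤ_[2] ℚ_[2]) = Q * (1 - ρ h) * P := by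
    rw [hrel, Matrix.mul_sub, Matrix.sub_mul, Matrix.mul_one, hQP]
  have h2 : (1 - (ρ' h).map (algebraMap ℤ_[2] ℚ_[2])).det = 0 := by
    rw [h1, Matrix.det_mul, Matrix.det_mul, hdet2, mul_zero, zero_mul]
  have h3 : (1 - cm ρ' h).det =
      algebraMap ℚ_[2] ℂ_[2] (1 - (ρ' h).map (algebraMap ℤ_[2] ℚ_[2])).det := by
    rw [hcast, RingHom.map_det, map_sub, map_one]
    rfl
  rw [h3, h2, map_zero]

end Pool.Agent.SD
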