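import Pool.Agent.Lib_helper11.SD.Arith

/-!
# The traces modulo two and the zeros in the projective line, II (MP_97f789_ag)
-/

set_option autoImplicit false

namespace Pool.Agent.SD

open NumberField Polynomial Pool.Agent.TT Pool.Agent.TD Topology

/-- The parity of the character sum. -/
theorem sa_parity {F : Type} [Field F] [Fintype F] [DecidableEq F] (hF : ringChar F ≠ 2)
    (a b : F → F) (a' b' : F) :
    (((∑ t : F, ∑ x : F, quadraticChar F (x * (x ^ 2 + a t * x + b t))) +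
      ∑ x : F, quadraticChar F (x * (x ^ 2 + a' * x + b')) : ℤ) : ZMod 2) =
      ((Nat.card {t // b t = 0} : ZMod 2) + (if b' = 0 then 1 else 0)) +
        ((Nat.card {t // a t ^ 2 - 4 * b t = 0} : ZMod 2) +
          (if a' ^ 2 - 4 * b' = 0 then 1 else 0)) := by
  rw [Int.cast_add, td1_inner hF a' b', Int.cast_sum]
  simp only [td1_inner hF]
  rw [Finset.sum_add_distrib, Finset.sum_boole, Finset.sum_boole, Nat.card_eq_fintype_card,
    Nat.card_eq_fintype_card, Fintype.card_subtype, Fintype.card_subtype]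
  ring

theorem sa_coeff {R : Type} [CommRing R] {n : ℕ} (A B : R[X]) (hA : A.natDegree ≤ 2 * n) :
    (A ^ 2 - 4 * B).coeff (4 * n) = A.coeff (2 * n) ^ 2 - 4 * B.coeff (4 * n) := by
  rw [coeff_sub]
  congr 1
  · have h2 := coeff_mul_add_eq_of_natDegree_le hA hA
    rw [pow_two, pow_two, ← h2]
    congr 1
    ring
  · have h : (4 : R[X]) = C (4 : R) := (map_ofNat C 4).symm
    rw [h, coeff_C_mul]

variable {K : Type} [Field K] [NumberField K] [Algebra K Qbar]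

omit [NumberField K] in
/-- A coefficient vanishes if and only if it vanishes modulo `𝔓`. -/
theorem sa_inf (x : 𝓞 K) : ∃ C : Finset ℕ, ∀ p : ℕ, p.Prime → p ∉ C →
    ∀ 𝔓 : Ideal (𝓞 Qbar), 𝔓.IsPrime → (p : 𝓞 Qbar) ∈ 𝔓 → ∀ (F : Type) [Field F] (φ : 𝓞 K →+* F),
      (∀ x : 𝓞 K, φ x = 0 ↔ algebraMap (𝓞 K) (𝓞 Qbar) x ∈ 𝔓) → (φ x = 0 ↔ x = 0) := by
  by_cases hx : x = 0
  · refine ⟨∅, ?_⟩
    intro p _ _ 𝔓 _ _ F _ φ _
    simp [hx]
  · obtain ⟨C, hC⟩ := sa_nonzero hx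
    refine ⟨C, ?_⟩
    intro p hp hpC 𝔓 h𝔓 hp𝔓 F _ φ hφ
    constructor
    · intro h
      exact absurd ((hφ x).mp h) (hC p hp hpC 𝔓 h𝔓 hp𝔓)
    · intro h
      exact absurd h hx

open Classical in
/-- The trace modulo 2. -/
theorem sa_trace {n : ℕ} (A B : (𝓞 K)[X]) (hA : A.natDegree ≤ 2 * n)
    (hB0 : B ≠ 0) (hD0 : A ^ 2 - 4 * B ≠ 0)
    (τ : (Qbar ≃ₐ[K] Qbar) → ℚ_[2]) (hτ : Continuous τ) (ht : HasTraces τ n A B)
    (σ : Qbar ≃ₐ[K] Qbar) :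
    ‖τ σ - ((Nat.card {z : pz (4 * n) B // (z : Option Qbar).map σ = z} : ℚ_[2]) +
      (Nat.card {z : pz (4 * n) (A ^ 2 - 4 * B) // (z : Option Qbar).map σ = z} : ℚ_[2]))‖ < 1 := by
  rw [pz_card hB0, pz_card hD0]
  obtain ⟨C1, hC1⟩ := ht
  obtain ⟨C2, hC2⟩ := sa_roots B hB0
  obtain ⟨C3, hC3⟩ := sa_roots (A ^ 2 - 4 * B) hD0
  obtain ⟨C4, hC4⟩ := sa_inf (B.coeff (4 * n))
  obtain ⟨C5, hC5⟩ := sa_inf ((A ^ 2 - 4 * B).coeff (4 * n))
  -- the neighbourhood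
  have hU1 : {s : Qbar ≃ₐ[K] Qbar | ‖τ s⁻¹ - τ σ‖ < 1} ∈ 𝓝 σ⁻¹ := by
    have h1 : Continuous (fun s : Qbar ≃ₐ[K] Qbar => ‖τ s⁻¹ - τ σ‖) :=
      ((hτ.comp continuous_inv).sub continuous_const).norm
    refine (isOpen_lt h1 continuous_const).mem_nhds ?_
    change ‖τ (σ⁻¹)⁻¹ - τ σ‖ < 1
    rw [inv_inv, sub_self, norm_zero]
    exact one_pos
  have hU2 := td3_nhds σ⁻¹ (rts B ∪ rts (A ^ 2 - 4 * B))
    ((sa_finite hB0).union (sa_finite hD0))
  obtain ⟨p, hp, hpC, Q, hQ, hpQ, s, ⟨hs1, hs2⟩, hs⟩ :=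
    Pool.Agent.TB.fb_dense σ⁻¹ _ (Filter.inter_mem hU1 hU2) (C1 ∪ (C2 ∪ (C3 ∪ (C4 ∪ (C5 ∪ {2})))))
  simp only [Finset.mem_union, Finset.mem_singleton, not_or] at hpC
  obtain ⟨hp1, hp2, hp3, hpc4, hpc5, hp4⟩ := hpC
  have hpF : Fact p.Prime := ⟨hp⟩
  have hchar : CharP (𝓞 Qbar ⧸ Q) p := Pool.Agent.DS.frx_charP hp Q hpQ
  let f : 𝓞 K →+* (𝓞 Qbar ⧸ Q) := (Ideal.Quotient.mk Q).comp (algebraMap (𝓞 K) (𝓞 Qbar))
  have hf : ∀ x, f x ^ p = f x := by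
    intro x
    have h1 := hs (algebraMap (𝓞 K) (𝓞 Qbar) x) (algebraMap (𝓞 K) (𝓞 Qbar) x) (by
      have h2 : ((algebraMap (𝓞 K) (𝓞 Qbar) x : 𝓞 Qbar) : Qbar) = algebraMap K Qbar (x : K) := rfl
      rw [h2, AlgEquiv.commutes])
    rw [← Ideal.Quotient.eq_zero_iff_mem, map_sub, map_pow, sub_eq_zero] at h1
    exact h1.symm
  obtain ⟨φ, hφ⟩ := rm_exists f hf
  have hcastinj : Function.Injective (ZMod.castHom (dvd_refl p) (𝓞 Qbar ⧸ Q)) :=
    ZMod.castHom_injective _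
  have hφker : ∀ x : 𝓞 K, φ x = 0 ↔ algebraMap (𝓞 K) (𝓞 Qbar) x ∈ Q := by
    intro x
    rw [← Ideal.Quotient.eq_zero_iff_mem]
    change φ x = 0 ↔ f x = 0
    rw [← hφ x, map_eq_zero_iff _ hcastinj]
  have hs' : ∀ x y : 𝓞 Qbar, (y : Qbar) = s x → y - x ^ Fintype.card (ZMod p) ∈ Q := by
    rw [ZMod.card]
    exact hs
  have e1 := hC1 p hp hp1 Q hQ hpQ (ZMod p) φ hφker s hs'
  have e2 := hC2 p hp hp2 Q hQ hpQ (ZMod p) φ hφker s hs'
  have e3 := hC3 p hp hp3 Q hQ hpQ (ZMod p) φ hφker s hs'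
  have e4 := hC4 p hp hpc4 Q hQ hpQ (ZMod p) φ hφker
  have e5 := hC5 p hp hpc5 Q hQ hpQ (ZMod p) φ hφker
  rw [ZMod.card] at e1
  rw [sa_coeff A B hA, map_sub, map_pow, map_mul, map_ofNat] at e5
  -- the parity
  have hpar : ((charSum n A B φ : ℤ) : ZMod 2) =
      ((Nat.card {t // B.eval₂ φ t = 0} : ZMod 2) + (if B.coeff (4 * n) = 0 then 1 else 0)) +
        ((Nat.card {t // (A ^ 2 - 4 * B).eval₂ φ t = 0} : ZMod 2) +
          (if (A ^ 2 - 4 * B).coeff (4 * n) = 0 then 1 else 0)) := by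
    have h1 := @sa_parity (ZMod p) _ _ (fun a b => Classical.propDecidable (a = b))
      (by rw [ZMod.ringChar_zmod_n]; exact hp4) (fun t => A.eval₂ φ t) (fun t => B.eval₂ φ t)
      (φ (A.coeff (2 * n))) (φ (B.coeff (4 * n)))
    rw [← sa_coeff A B hA] at e5
    simp only [e4, e5] at h1
    simp only [td3_eval]
    exact h1
  rw [e2, e3] at hpar
  -- the fixed roots
  have hfix : ∀ P : (𝓞 K)[X], rts P ⊆ rts B ∪ rts (A ^ 2 - 4 * B) →
      Nat.card {β : rts P // s β = β} = Nat.card {β : rts P // σ β = β} := by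
    intro P hP
    have h1 : ∀ β : rts P, s β = β ↔ σ β = β := by
      intro β
      rw [hs2 β (hP β.2)]
      constructor
      · intro h
        have h2 : σ (σ⁻¹ (β : Qbar)) = σ β := by rw [h]
        rw [← h2]
        change (σ * σ⁻¹) (β : Qbar) = β
        rw [mul_inv_cancel]
        rfl
      · intro h
        have h2 : σ⁻¹ (σ (β : Qbar)) = σ⁻¹ β := by rw [h]
        rw [← h2]
        change (σ⁻¹ * σ) (β : Qbar) = β
        rw [inv_mul_cancel]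
        rfl
    exact Nat.card_congr (Equiv.subtypeEquivRight h1)
  rw [hfix B Set.subset_union_left, hfix _ Set.subset_union_right] at hpar
  set N1 := Nat.card {β : rts B // σ β = β} + (if B.coeff (4 * n) = 0 then 1 else 0) with hN1
  set N2 := Nat.card {β : rts (A ^ 2 - 4 * B) // σ β = β} +
    (if (A ^ 2 - 4 * B).coeff (4 * n) = 0 then 1 else 0) with hN2
  have hpar2 : ((charSum n A B φ : ℤ) : ZMod 2) = (N1 : ZMod 2) + (N2 : ZMod 2) := by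
    rw [hpar, hN1, hN2]
    push_cast
    rfl
  -- the estimates
  have hev : ‖((charSum n A B φ : ℤ) : ℚ_[2]) - ((N1 : ℚ_[2]) + (N2 : ℚ_[2]))‖ < 1 := by
    have h1 : (((charSum n A B φ - ((N1 : ℤ) + N2) : ℤ)) : ZMod 2) = 0 := by
      rw [Int.cast_sub, hpar2]
      push_cast
      rw [sub_self]
    rw [ZMod.intCast_zmod_eq_zero_iff_dvd] at h1
    have h2 : ‖(((charSum n A B φ - ((N1 : ℤ) + N2) : ℤ)) : ℚ_[2])‖ < 1 := by
      rw [Padic.norm_intCast_lt_one_iff]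
      exact_mod_cast h1
    rw [Int.cast_sub, Int.cast_add, Int.cast_natCast, Int.cast_natCast] at h2
    exact h2
  have hodd : ‖(p : ℚ_[2]) - 1‖ < 1 := by
    have h1 : ((p : ℚ_[2]) - 1) = (((p : ℤ) - 1 : ℤ) : ℚ_[2]) := by push_cast; rfl
    rw [h1, Padic.norm_intCast_lt_one_iff]
    have h2 : p % 2 = 1 := by
      rcases hp.eq_two_or_odd with h | h
      · exact absurd h hp4
      · exact h
    omega
  have hpn : ‖(p : ℚ_[2])‖ = 1 := by
    have h1 : (p : ℚ_[2]) = ((p : ℚ_[2]) - 1) + 1 := by ring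
    rw [h1, Padic.add_eq_max_of_ne (by rw [norm_one]; exact hodd.ne), norm_one,
      max_eq_right hodd.le]
  have hτs : ‖τ s⁻¹‖ ≤ 1 := by
    have h1 : ‖(p : ℚ_[2]) * τ s⁻¹‖ ≤ 1 := by
      rw [e1]
      exact Padic.norm_int_le_one _
    rwa [norm_mul, hpn, one_mul] at h1
  have hfin : τ σ - ((N1 : ℚ_[2]) + (N2 : ℚ_[2])) =
      -(τ s⁻¹ - τ σ) + ((((charSum n A B φ : ℤ) : ℚ_[2]) - ((N1 : ℚ_[2]) + (N2 : ℚ_[2]))) +
        -(((p : ℚ_[2]) - 1) * τ s⁻¹)) := by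
    rw [← e1]
    ring
  rw [hfin]
  refine (Padic.nonarchimedean _ _).trans_lt (max_lt ?_ ?_)
  · rw [norm_neg]
    exact hs1
  · refine (Padic.nonarchimedean _ _).trans_lt (max_lt hev ?_)
    rw [norm_neg, norm_mul]
    calc ‖(p : ℚ_[2]) - 1‖ * ‖τ s⁻¹‖ ≤ ‖(p : ℚ_[2]) - 1‖ * 1 := by gcongr
      _ < 1 := by rw [mul_one]; exact hodd

end Pool.Agent.SD
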